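import Mathlib

/-!
# Products with squares in short intervals: definitions and linear algebra over `F_2`
-/

set_option autoImplicit false
open Finset
open scoped Classical

namespace Pool.Agent.H44.SQ

/-- some nonempty set of integers of `{n+1, …, n+t}` makes a square together with `n` -/
def Good (n t : ℕ) : Prop :=
  ∃ S : Finset ℕ, S.Nonempty ∧ S ⊆ Finset.Icc (n + 1) (n + t) ∧ IsSquare (n * ∏ a ∈ S, a)

/-- `t_n` -/
noncomputable def tt (n : ℕ) : ℕ := sInf {t : ℕ | 0 < t ∧ Good n t}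

/-- the largest prime factor of `n` (`0` if there is none) -/
def P (n : ℕ) : ℕ := n.primeFactors.sup id

theorem tt_spec {n : ℕ} (hn : 1 ≤ n) : 0 < tt n ∧ Good n (tt n) := by
  have hne : {t : ℕ | 0 < t ∧ Good n t}.Nonempty := by
    refine ⟨3 * n, by omega, {4 * n}, Finset.singleton_nonempty _, ?_, ?_⟩
    · intro a ha
      rw [Finset.mem_singleton] at ha
      rw [Finset.mem_Icc]
      omega
    · rw [Finset.prod_singleton]
      exact ⟨2 * n, by ring⟩
  exact Nat.sInf_mem hne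

theorem tt_le {n t : ℕ} (ht : 0 < t) (h : Good n t) : tt n ≤ t := Nat.sInf_le ⟨ht, h⟩

theorem le_P {n p : ℕ} (hn : n ≠ 0) (hp : p.Prime) (h : p ∣ n) : p ≤ P n :=
  Finset.le_sup (f := id) (Nat.mem_primeFactors.mpr ⟨hp, h, hn⟩)

theorem P_le {n : ℕ} (hn : n ≠ 0) : P n ≤ n := by
  unfold P
  apply Finset.sup_le
  intro p hp
  exact Nat.le_of_dvd (Nat.pos_of_ne_zero hn) (Nat.dvd_of_mem_primeFactors hp)

theorem P_prime {n : ℕ} (hn : 2 ≤ n) : (P n).Prime ∧ P n ∣ n := by
  have hne : n.primeFactors.Nonempty := Nat.nonempty_primeFactors.mpr hn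
  obtain ⟨p, hp, hpe⟩ := Finset.exists_mem_eq_sup n.primeFactors hne id
  unfold P
  rw [hpe]
  exact ⟨Nat.prime_of_mem_primeFactors hp, Nat.dvd_of_mem_primeFactors hp⟩

theorem isSquare_of_even {n : ℕ} (hn : n ≠ 0) (h : ∀ p, p.Prime → Even (n.factorization p)) :
    IsSquare n := by
  refine ⟨∏ p ∈ n.primeFactors, p ^ (n.factorization p / 2), ?_⟩
  conv_lhs => rw [← Nat.prod_factorization_pow_eq_self hn]
  rw [Finsupp.prod, Nat.support_factorization, ← Finset.prod_mul_distrib]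
  refine Finset.prod_congr rfl fun p hp => ?_
  rw [← pow_add]
  congr 1
  obtain ⟨k, hk⟩ := h p (Nat.prime_of_mem_primeFactors hp)
  omega

theorem even_of_isSquare {n : ℕ} (h : IsSquare n) (p : ℕ) : Even (n.factorization p) := by
  obtain ⟨r, rfl⟩ := h
  by_cases hr : r = 0
  · subst hr; simp
  · rw [Nat.factorization_mul hr hr]
    exact ⟨r.factorization p, rfl⟩

/-- a set of positive integers with prime factors `≤ z` and without nonempty square products has at
most `π(z)` elements -/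
theorem card_le_primes (W : Finset ℕ) (z : ℕ) (h0 : ∀ m ∈ W, m ≠ 0)
    (hz : ∀ m ∈ W, ∀ p : ℕ, p.Prime → p ∣ m → p ≤ z)
    (hI : ∀ I ⊆ W, I.Nonempty → ¬ IsSquare (∏ m ∈ I, m)) :
    W.card ≤ ((Finset.Icc 1 z).filter Nat.Prime).card := by
  by_contra hc
  push Not at hc
  set Q := (Finset.Icc 1 z).filter Nat.Prime with hQ
  let φ : Finset ℕ → Finset ℕ := fun I => Q.filter fun p => Odd ((∏ m ∈ I, m).factorization p)
  obtain ⟨I, hIW, J, hJW, hne, heq⟩ := Finset.exists_ne_map_eq_of_card_lt_of_maps_to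
    (s := W.powerset) (t := Q.powerset) (f := φ)
    (by rw [Finset.card_powerset, Finset.card_powerset]; exact Nat.pow_lt_pow_right (by norm_num) hc)
    (by intro I _; exact Finset.mem_coe.mpr (Finset.mem_powerset.mpr (Finset.filter_subset _ _)))
  rw [Finset.mem_powerset] at hIW hJW
  have hpos : ∀ I ⊆ W, ∏ m ∈ I, m ≠ 0 := fun I hI' =>
    Finset.prod_ne_zero_iff.mpr fun m hm => h0 m (hI' hm)
  -- large primes do not occur
  have hbig : ∀ I ⊆ W, ∀ p : ℕ, p.Prime → p ∉ Q → (∏ m ∈ I, m).factorization p = 0 := by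
    intro I hI' p hp hpQ
    apply Nat.factorization_eq_zero_of_not_dvd
    intro hd
    obtain ⟨m, hm, hpm⟩ := (hp.prime.dvd_finsetProd_iff _).mp hd
    apply hpQ
    rw [hQ, Finset.mem_filter, Finset.mem_Icc]
    exact ⟨⟨hp.one_lt.le, hz m (hI' hm) p hp hpm⟩, hp⟩
  have hpar : ∀ p : ℕ, p.Prime → (Odd ((∏ m ∈ I, m).factorization p) ↔
      Odd ((∏ m ∈ J, m).factorization p)) := by
    intro p hp
    by_cases hpQ : p ∈ Q
    · have h1 : p ∈ φ I ↔ p ∈ φ J := by rw [heq]
      simp only [φ, Finset.mem_filter, hpQ, true_and] at h1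
      exact h1
    · rw [hbig I hIW p hp hpQ, hbig J hJW p hp hpQ]
  set A := I \ J ∪ J \ I with hA
  have hAW : A ⊆ W := by
    intro x hx
    rw [hA, Finset.mem_union, Finset.mem_sdiff, Finset.mem_sdiff] at hx
    rcases hx with hx | hx
    · exact hIW hx.1
    · exact hJW hx.1
  have hAne : A.Nonempty := by
    rw [Finset.nonempty_iff_ne_empty]
    intro h
    rw [hA, Finset.union_eq_empty, Finset.sdiff_eq_empty_iff_subset,
      Finset.sdiff_eq_empty_iff_subset] at h
    exact hne (Finset.Subset.antisymm h.1 h.2)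
  refine hI A hAW hAne (isSquare_of_even (hpos A hAW) fun p hp => ?_)
  have hdisj : Disjoint (I \ J) (J \ I) := by
    rw [Finset.disjoint_left]
    intro x hx hx'
    rw [Finset.mem_sdiff] at hx hx'
    exact hx.2 hx'.1
  have e1 : ∏ m ∈ A, m = (∏ m ∈ I \ J, m) * ∏ m ∈ J \ I, m := Finset.prod_union hdisj
  have e2 : (∏ m ∈ I ∩ J, m) * (∏ m ∈ I \ J, m) = ∏ m ∈ I, m :=
    Finset.prod_inter_mul_prod_diff _ _ _
  have e3 : (∏ m ∈ J ∩ I, m) * (∏ m ∈ J \ I, m) = ∏ m ∈ J, m :=
    Finset.prod_inter_mul_prod_diff _ _ _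
  have n1 := hpos (I \ J) (Finset.sdiff_subset.trans hIW)
  have n2 := hpos (J \ I) (Finset.sdiff_subset.trans hJW)
  have n3 := hpos (I ∩ J) (Finset.inter_subset_left.trans hIW)
  have n4 := hpos (J ∩ I) (Finset.inter_subset_left.trans hJW)
  have f1 : (∏ m ∈ A, m).factorization p =
      (∏ m ∈ I \ J, m).factorization p + (∏ m ∈ J \ I, m).factorization p := by
    rw [e1, Nat.factorization_mul n1 n2]; rfl
  have f2 : (∏ m ∈ I, m).factorization p =
      (∏ m ∈ I ∩ J, m).factorization p + (∏ m ∈ I \ J, m).factorization p := by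
    rw [← e2, Nat.factorization_mul n3 n1]; rfl
  have f3 : (∏ m ∈ J, m).factorization p =
      (∏ m ∈ J ∩ I, m).factorization p + (∏ m ∈ J \ I, m).factorization p := by
    rw [← e3, Nat.factorization_mul n4 n2]; rfl
  have f4 : J ∩ I = I ∩ J := Finset.inter_comm _ _
  rw [f4] at f3
  have h5 := hpar p hp
  rw [f2, f3] at h5
  rw [f1, Nat.even_iff]
  rw [Nat.odd_iff, Nat.odd_iff] at h5
  omega

/-- a nonsquare `m` with `t_m > L` and a nonempty set of larger numbers at distance at most `L` do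
not have a square product -/
theorem bad_indep (L : ℕ) (W : Finset ℕ) (hW : ∀ m ∈ W, 1 ≤ m ∧ ¬ IsSquare m ∧ L < tt m)
    (hL : ∀ m ∈ W, ∀ m' ∈ W, m' ≤ m + L) :
    ∀ I ⊆ W, I.Nonempty → ¬ IsSquare (∏ m ∈ I, m) := by
  intro I hI hne hsq
  set m := I.min' hne with hm
  have hmI : m ∈ I := Finset.min'_mem _ _
  have hmW := hW m (hI hmI)
  rw [← Finset.mul_prod_erase I (fun m => m) hmI] at hsq
  have hne2 : (I.erase m).Nonempty := by
    rw [Finset.nonempty_iff_ne_empty]
    intro h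
    rw [h, Finset.prod_empty, mul_one] at hsq
    exact hmW.2.1 hsq
  have hgt : ∀ a ∈ I.erase m, m < a := by
    intro a ha
    rw [Finset.mem_erase] at ha
    exact lt_of_le_of_ne (Finset.min'_le _ _ ha.2) (Ne.symm ha.1)
  have hL0 : 0 < L := by
    obtain ⟨a, ha⟩ := hne2
    have h1 := hgt a ha
    have h2 := hL m (hI hmI) a (hI (Finset.mem_of_mem_erase ha))
    omega
  have hg : Good m L := by
    refine ⟨I.erase m, hne2, ?_, hsq⟩
    intro a ha
    rw [Finset.mem_Icc]
    exact ⟨hgt a ha, hL m (hI hmI) a (hI (Finset.mem_of_mem_erase ha))⟩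
  have := tt_le hL0 hg
  omega

/-- counting in windows -/
theorem window_card (A : Finset ℕ) (N L c : ℕ) (hL : 1 ≤ L) (hA : A ⊆ Finset.Icc 1 N)
    (h : ∀ W ⊆ A, (∀ m ∈ W, ∀ m' ∈ W, m' ≤ m + L) → W.card ≤ c) :
    A.card ≤ c * (N / L + 1) := by
  have h1 := Finset.card_le_mul_card_image_of_maps_to (f := fun m => m / L) (s := A)
    (t := Finset.range (N / L + 1)) (by
      intro m hm
      have := (Finset.mem_Icc.mp (hA hm)).2
      exact Finset.mem_range.mpr (Nat.lt_succ_of_le (Nat.div_le_div_right this))) c (by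
      intro q _
      apply h _ (Finset.filter_subset _ _)
      intro m hm m' hm'
      rw [Finset.mem_filter] at hm hm'
      have e1 := Nat.div_add_mod m L
      have e2 := Nat.div_add_mod m' L
      have e3 := Nat.mod_lt m' hL
      rw [hm.2] at e1
      rw [hm'.2] at e2
      omega)
  rwa [Finset.card_range] at h1

/-- the exceptional numbers whose largest prime factor is between `y` and `2 y` -/
theorem dyadic (N K y : ℕ) (hK : 1 ≤ K) (hy : 1 ≤ y) :
    ((Finset.Icc 1 N).filter (fun n => ¬ IsSquare n ∧ y < P n ∧ P n ≤ 2 * y ∧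
      K * P n < tt n)).card ≤
      ((Finset.Icc 1 (2 * y)).filter Nat.Prime).card * (N / (K * y) + 1) := by
  have hKy : 1 ≤ K * y := Nat.one_le_iff_ne_zero.mpr (by positivity)
  refine window_card _ N (K * y) _ hKy (Finset.filter_subset _ _) ?_
  intro W hW hWL
  have hmem : ∀ m ∈ W, 1 ≤ m ∧ ¬ IsSquare m ∧ y < P m ∧ P m ≤ 2 * y ∧ K * P m < tt m := by
    intro m hm
    have := Finset.mem_filter.mp (hW hm)
    exact ⟨(Finset.mem_Icc.mp this.1).1, this.2⟩
  refine card_le_primes W (2 * y) (fun m hm => by have := (hmem m hm).1; omega) ?_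
    (bad_indep (K * y) W ?_ hWL)
  · intro m hm p hp hpm
    exact (le_P (by have := (hmem m hm).1; omega) hp hpm).trans (hmem m hm).2.2.2.1
  · intro m hm
    obtain ⟨h1, h2, h3, _, h5⟩ := hmem m hm
    refine ⟨h1, h2, lt_of_le_of_lt (Nat.mul_le_mul_left K h3.le) h5⟩

/-- the lower bound -/
theorem P_le_tt {n : ℕ} (hn : 2 ≤ n) (h : ¬ P n ^ 2 ∣ n) : P n ≤ tt n := by
  obtain ⟨hp, hd⟩ := P_prime hn
  obtain ⟨ht, S, hne, hS, hsq⟩ := tt_spec (by omega : 1 ≤ n)
  set p := P n with hpd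
  have hn0 : n ≠ 0 := by omega
  have hS0 : ∏ a ∈ S, a ≠ 0 := Finset.prod_ne_zero_iff.mpr fun a ha => by
    have := (Finset.mem_Icc.mp (hS ha)).1
    omega
  have h1 := even_of_isSquare hsq p
  rw [Nat.factorization_mul hn0 hS0] at h1
  have h2 : n.factorization p = 1 := by
    have h3 : 1 ≤ n.factorization p := (hp.dvd_iff_one_le_factorization hn0).mp hd
    have h4 : ¬ 2 ≤ n.factorization p := fun h4 =>
      h ((hp.pow_dvd_iff_le_factorization hn0).mpr h4)
    omega
  have h3 : p ∣ ∏ a ∈ S, a := by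
    rw [hp.dvd_iff_one_le_factorization hS0]
    rw [Finsupp.add_apply, h2] at h1
    by_contra hc
    have h4 : (∏ a ∈ S, a).factorization p = 0 := by omega
    rw [h4] at h1
    exact absurd h1 (by decide)
  obtain ⟨a, ha, hpa⟩ := (hp.prime.dvd_finsetProd_iff _).mp h3
  have h4 := Finset.mem_Icc.mp (hS ha)
  have h5 : p ∣ a - n := Nat.dvd_sub hpa hd
  have h6 : p ≤ a - n := Nat.le_of_dvd (by omega) h5
  omega

end Pool.Agent.H44.SQ
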