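import Pool.Agent.H44.SQ.Core

/-!
# The upper bound `t_n ≤ max (P(n), 3 √(n / 2) + 3)`, a sharper form of Selfridge's bound
-/

set_option autoImplicit false
open Finset
open scoped Classical

namespace Pool.Agent.H44.SQ

/-- `m` is a square times a product of elements of the window -/
def InH (n T m : ℕ) : Prop :=
  m ≠ 0 ∧ ∃ f : ℕ → ℕ, IsSquare (m * ∏ a ∈ Finset.Icc (n + 1) (n + T), a ^ f a)

theorem InH.mul {n T m m' : ℕ} (h : InH n T m) (h' : InH n T m') : InH n T (m * m') := by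
  obtain ⟨h0, f, hf⟩ := h
  obtain ⟨h0', f', hf'⟩ := h'
  refine ⟨mul_ne_zero h0 h0', fun a => f a + f' a, ?_⟩
  have : m * m' * ∏ a ∈ Finset.Icc (n + 1) (n + T), a ^ (f a + f' a) =
      (m * ∏ a ∈ Finset.Icc (n + 1) (n + T), a ^ f a) *
        (m' * ∏ a ∈ Finset.Icc (n + 1) (n + T), a ^ f' a) := by
    simp only [pow_add, Finset.prod_mul_distrib]
    ring
  rw [this]
  exact hf.mul hf'

theorem isSquare_cancel {c d : ℕ} (hc : c ≠ 0) (h : IsSquare (c * c * d)) : IsSquare d := by
  obtain ⟨r, hr⟩ := h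
  have h1 : c ^ 2 ∣ r ^ 2 := ⟨d, by rw [pow_two, pow_two, ← hr]⟩
  have h2 : c ∣ r := (Nat.pow_dvd_pow_iff (by norm_num)).mp h1
  obtain ⟨k, rfl⟩ := h2
  refine ⟨k, ?_⟩
  have h3 : c * c * d = c * c * (k * k) := by rw [hr]; ring
  exact Nat.eq_of_mul_eq_mul_left (by positivity) h3

theorem InH.cancel {n T c d : ℕ} (hc : c ≠ 0) (h : InH n T (c * c * d)) : InH n T d := by
  obtain ⟨h0, f, hf⟩ := h
  refine ⟨right_ne_zero_of_mul h0, f, isSquare_cancel hc ?_⟩
  rwa [← mul_assoc]

theorem InH.of_mul {n T m m' : ℕ} (h : InH n T m) (h' : InH n T (m * m')) : InH n T m' := by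
  have h1 := h.mul h'
  rw [← mul_assoc] at h1
  exact h1.cancel h.1

theorem InH.one (n T : ℕ) : InH n T 1 :=
  ⟨one_ne_zero, fun _ => 0, by simp⟩

theorem InH.sq (n T : ℕ) {c : ℕ} (hc : c ≠ 0) : InH n T (c * c) :=
  ⟨mul_ne_zero hc hc, fun _ => 0, by simp⟩

theorem InH.window {n T a : ℕ} (h1 : n < a) (h2 : a ≤ n + T) : InH n T a := by
  refine ⟨by omega, fun b => if b = a then 1 else 0, ?_⟩
  have : ∏ b ∈ Finset.Icc (n + 1) (n + T), b ^ (if b = a then 1 else 0) = a := by
    rw [Finset.prod_eq_single a]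
    · simp
    · intro b _ hb
      simp [hb]
    · intro h
      exact absurd (Finset.mem_Icc.mpr ⟨h1, h2⟩) h
  rw [this]
  exact ⟨a, rfl⟩

theorem exists_pow (q s : ℕ) (h1 : 1 ≤ q) (h2 : q ≤ 2 * s) :
    ∃ j, s ≤ q * 2 ^ j ∧ q * 2 ^ j ≤ 2 * s := by
  have hex : ∃ j, s ≤ q * 2 ^ j := by
    refine ⟨s, ?_⟩
    calc s ≤ 2 ^ s := Nat.lt_two_pow_self.le
      _ ≤ q * 2 ^ s := Nat.le_mul_of_pos_left _ h1
  refine ⟨Nat.find hex, Nat.find_spec hex, ?_⟩
  rcases Nat.eq_zero_or_pos (Nat.find hex) with h0 | h0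
  · rw [h0]; omega
  · have h3 := Nat.find_min hex (m := Nat.find hex - 1) (by omega)
    have h4 : q * 2 ^ (Nat.find hex) = 2 * (q * 2 ^ (Nat.find hex - 1)) := by
      conv_lhs => rw [← Nat.sub_add_cancel h0, pow_succ]
      ring
    rw [h4]
    omega

section
variable {n T s : ℕ}

theorem InH.step (hs : n < 2 * (s * s)) (h1 : 1 ≤ s) (hT : 3 * s ≤ T) {x : ℕ} (hx1 : s ≤ x)
    (hx2 : x < 2 * s) : InH n T (x * (x + 1)) := by
  obtain ⟨d, rfl⟩ := Nat.exists_eq_add_of_le hx1
  obtain ⟨e, rfl⟩ := Nat.exists_eq_add_of_le (by omega : d ≤ s)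
  set x := d + e + d with hxd
  set y := n / x with hy
  have hx0 : 0 < x := by omega
  have e1 := Nat.div_add_mod n x
  have e2 := Nat.mod_lt n hx0
  rw [← hy] at e1
  have hy2 : y < d + 2 * e := by
    rw [hy]
    apply Nat.div_lt_of_lt_mul
    have : 2 * ((d + e) * (d + e)) ≤ x * (d + 2 * e) := by
      rw [hxd]
      nlinarith [Nat.zero_le (d * e)]
    omega
  clear_value y
  clear hy
  have e3 : x * (y + 1) = x * y + x := by ring
  have e4 : (x + 1) * (y + 1) = x * y + x + y + 1 := by ring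
  have w1 : InH n T (x * (y + 1)) := InH.window (by omega) (by omega)
  have w2 : InH n T ((x + 1) * (y + 1)) := InH.window (by omega) (by omega)
  have h5 := w1.mul w2
  have e5 : x * (y + 1) * ((x + 1) * (y + 1)) = (y + 1) * (y + 1) * (x * (x + 1)) := by ring
  rw [e5] at h5
  exact h5.cancel (by omega)

theorem InH.chain (hs : n < 2 * (s * s)) (h1 : 1 ≤ s) (hT : 3 * s ≤ T) {x : ℕ} (hx1 : s ≤ x)
    (hx2 : x ≤ 2 * s) : InH n T (s * x) := by
  induction x, hx1 using Nat.le_induction with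
  | base => exact InH.sq n T (by omega)
  | succ x hx ih =>
    have h3 := ih (by omega)
    have h4 := InH.step hs h1 hT hx (by omega)
    have h5 := h3.mul h4
    have e : s * x * (x * (x + 1)) = x * x * (s * (x + 1)) := by ring
    rw [e] at h5
    exact h5.cancel (by omega)

theorem InH.two (hs : n < 2 * (s * s)) (h1 : 1 ≤ s) (hT : 3 * s ≤ T) (j : ℕ) :
    InH n T (2 ^ j) := by
  have h2 : InH n T 2 := by
    have h3 := InH.chain hs h1 hT (x := 2 * s) (by omega) le_rfl
    have e : s * (2 * s) = s * s * 2 := by ring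
    rw [e] at h3
    exact h3.cancel (by omega)
  induction j with
  | zero => exact InH.one n T
  | succ j ih =>
    rw [pow_succ]
    exact ih.mul h2

theorem InH.small (hs : n < 2 * (s * s)) (h1 : 1 ≤ s) (hT : 3 * s ≤ T) {q : ℕ} (hq1 : 1 ≤ q)
    (hq2 : q ≤ 2 * s) : InH n T q := by
  have hss : InH n T s := by
    obtain ⟨j, hj1, hj2⟩ := exists_pow 1 s le_rfl (by omega)
    rw [one_mul] at hj1 hj2
    have h3 := InH.chain hs h1 hT hj1 hj2
    rw [mul_comm] at h3
    exact (InH.two hs h1 hT j).of_mul h3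
  obtain ⟨j, hj1, hj2⟩ := exists_pow q s hq1 hq2
  have h3 := hss.of_mul (InH.chain hs h1 hT hj1 hj2)
  rw [mul_comm] at h3
  exact (InH.two hs h1 hT j).of_mul h3

theorem InH.smooth (hs : n < 2 * (s * s)) (h1 : 1 ≤ s) (hT : 3 * s ≤ T) (m : ℕ) (hm : m ≠ 0)
    (hp : ∀ p : ℕ, p.Prime → p ∣ m → p ≤ 2 * s) : InH n T m := by
  induction m using Nat.strong_induction_on with
  | _ m ih =>
    rcases Nat.lt_or_ge m 2 with h2 | h2
    · have : m = 1 := by omega
      rw [this]
      exact InH.one n T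
    · have hq := Nat.minFac_prime (n := m) (by omega)
      obtain ⟨k, hk⟩ := Nat.minFac_dvd m
      have hk0 : k ≠ 0 := by
        rintro rfl
        rw [mul_zero] at hk
        exact hm hk
      have hkm : k < m := by
        conv_rhs => rw [hk]
        have := hq.two_le
        nlinarith [Nat.pos_of_ne_zero hk0]
      have h3 := ih k hkm hk0 (fun p hpp hpk => hp p hpp (by rw [hk]; exact Dvd.dvd.mul_left hpk _))
      have h4 := InH.small hs h1 hT hq.one_lt.le (hp _ hq (Nat.minFac_dvd m))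
      rw [hk]
      exact h4.mul h3

end

theorem good_of_InH {n T : ℕ} (hn : 1 ≤ n) (hT : 2 * Nat.sqrt n + 1 ≤ T) (h : InH n T n) :
    Good n T := by
  obtain ⟨_, f, hf⟩ := h
  set S := (Finset.Icc (n + 1) (n + T)).filter (fun a => Odd (f a)) with hS
  have e1 : ∏ a ∈ Finset.Icc (n + 1) (n + T), a ^ f a =
      (∏ a ∈ Finset.Icc (n + 1) (n + T), a ^ (f a / 2)) *
        (∏ a ∈ Finset.Icc (n + 1) (n + T), a ^ (f a / 2)) * ∏ a ∈ S, a := by
    rw [hS, Finset.prod_filter, ← Finset.prod_mul_distrib, ← Finset.prod_mul_distrib]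
    refine Finset.prod_congr rfl fun a _ => ?_
    split_ifs with ho
    · obtain ⟨k, hk⟩ := ho
      have : f a / 2 = k := by omega
      rw [this, hk]
      ring
    · rw [Nat.not_odd_iff_even] at ho
      obtain ⟨k, hk⟩ := ho
      have : f a / 2 = k := by omega
      rw [this, hk]
      ring
  have hpos : ∏ a ∈ Finset.Icc (n + 1) (n + T), a ^ (f a / 2) ≠ 0 :=
    Finset.prod_ne_zero_iff.mpr fun a ha => pow_ne_zero _ (by
      have := (Finset.mem_Icc.mp ha).1
      omega)
  have h2 : IsSquare (n * ∏ a ∈ S, a) := by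
    apply isSquare_cancel hpos
    rw [e1] at hf
    convert hf using 1
    ring
  rcases S.eq_empty_or_nonempty with h0 | h0
  · rw [h0, Finset.prod_empty, mul_one] at h2
    obtain ⟨r, hr⟩ := h2
    have hsr : Nat.sqrt n = r := by rw [hr, Nat.sqrt_eq]
    rw [hsr] at hT
    refine ⟨{(r + 1) * (r + 1)}, Finset.singleton_nonempty _, ?_, ?_⟩
    · intro a ha
      rw [Finset.mem_singleton] at ha
      rw [Finset.mem_Icc, ha, hr]
      constructor
      · nlinarith
      · nlinarith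
    · rw [Finset.prod_singleton, hr]
      exact ⟨r * (r + 1), by ring⟩
  · exact ⟨S, h0, Finset.filter_subset _ _, h2⟩

theorem tt_le_max {n : ℕ} (hn : 1 ≤ n) : tt n ≤ max (P n) (3 * Nat.sqrt (n / 2) + 3) := by
  set s := Nat.sqrt (n / 2) + 1 with hs
  have e0 : 3 * Nat.sqrt (n / 2) + 3 = 3 * s := by rw [hs]; ring
  rw [e0]
  set T := max (P n) (3 * s) with hT
  have hT1 : 3 * s ≤ T := le_max_right _ _
  have hs1 : 1 ≤ s := by omega
  have hns : n < 2 * (s * s) := by
    have h1 : n / 2 < s * s := Nat.sqrt_lt.mp (by omega)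
    omega
  have hr : 2 * Nat.sqrt n + 1 ≤ 3 * s := by
    have h1 : Nat.sqrt n * Nat.sqrt n ≤ n := Nat.sqrt_le n
    by_contra hc
    push Not at hc
    nlinarith
  apply tt_le (by omega)
  apply good_of_InH hn (by omega)
  rcases Nat.lt_or_ge (2 * s) (P n) with hp | hp
  · have hn2 : 2 ≤ n := by
      by_contra hc
      have : n = 1 := by omega
      subst this
      simp [P] at hp
    obtain ⟨hpp, m, hm⟩ := P_prime hn2
    set p := P n with hpd
    have hm0 : 0 < m := by
      rcases Nat.eq_zero_or_pos m with h | h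
      · rw [h, mul_zero] at hm; omega
      · exact h
    have hms : m < s := by
      by_contra hc
      push Not at hc
      have h1 : (2 * s + 1) * s ≤ p * m := Nat.mul_le_mul (by omega) hc
      nlinarith
    have w1 : InH n T (p * (m + 1)) := InH.window (by rw [mul_add, ← hm]; omega)
      (by rw [mul_add, ← hm, mul_one]; have := le_max_left p (3 * s); omega)
    have h2 : InH n T (m + 1) := InH.small hns hs1 hT1 (by omega) (by omega)
    rw [mul_comm] at w1
    have h3 := h2.of_mul w1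
    have h4 : InH n T m := InH.small hns hs1 hT1 hm0 (by omega)
    have h5 := h3.mul h4
    rwa [← hm] at h5
  · exact InH.smooth hns hs1 hT1 n (by omega) (fun p hpp hd => (le_P (by omega) hpp hd).trans hp)

end Pool.Agent.H44.SQ
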