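import Pool.Agent.H44.SQ.Smooth
import Pool.Agent.H44.SQ.Self

/-!
# The exceptional sets
-/

set_option autoImplicit false
open Finset
open scoped Classical

namespace Pool.Agent.H44.SQ

theorem card_sq (N : ℕ) : ((Finset.Icc 1 N).filter (fun n => IsSquare n)).card ≤ Nat.sqrt N := by
  calc _ ≤ ((Finset.Icc 1 (Nat.sqrt N)).image (fun r => r * r)).card := by
        apply Finset.card_le_card
        intro n hn
        rw [Finset.mem_filter, Finset.mem_Icc] at hn
        obtain ⟨⟨h1, h2⟩, r, hr⟩ := hn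
        rw [Finset.mem_image]
        refine ⟨r, Finset.mem_Icc.mpr ⟨?_, ?_⟩, hr.symm⟩
        · rcases Nat.eq_zero_or_pos r with h | h
          · rw [h] at hr
            omega
          · exact h
        · rw [Nat.le_sqrt]
          omega
    _ ≤ _ := by
        refine Finset.card_image_le.trans ?_
        rw [Nat.card_Icc]
        omega

/-- the numbers `n ≤ N` with `t_n > K P(n)` -/
noncomputable def Bad (K N : ℕ) : Finset ℕ :=
  (Finset.Icc 2 N).filter (fun n => K * P n < tt n)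

theorem bad_prop {K N n : ℕ} (hK : 1 ≤ K) (hn : n ∈ Bad K N) :
    2 ≤ n ∧ n ≤ N ∧ K * P n < tt n ∧ K * P n < 6 * Nat.sqrt N := by
  unfold Bad at hn
  rw [Finset.mem_filter, Finset.mem_Icc] at hn
  obtain ⟨⟨h1, h2⟩, h3⟩ := hn
  refine ⟨h1, h2, h3, ?_⟩
  have h4 := tt_le_max (n := n) (by omega)
  have h5 : P n ≤ K * P n := Nat.le_mul_of_pos_left _ hK
  have h6 : Nat.sqrt (n / 2) ≤ Nat.sqrt N := Nat.sqrt_le_sqrt (by omega)
  have h7 : 1 ≤ Nat.sqrt N := Nat.sqrt_pos.mpr (by omega)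
  rcases le_max_iff.mp h4 with h8 | h8
  · omega
  · omega

/-- the part of the exceptional set with `P(n)` between `2^k` and `2^(k+1)` -/
noncomputable def Dy (K N k : ℕ) : Finset ℕ :=
  (Finset.Icc 1 N).filter (fun n => ¬ IsSquare n ∧ 2 ^ k < P n ∧ P n ≤ 2 * 2 ^ k ∧
    K * P n < tt n)

theorem Dy_card (K N k : ℕ) (hK : 1 ≤ K) :
    ((Dy K N k).card : ℝ) ≤ 12 * (N / K) * (1 / ((k + 1 : ℕ) : ℝ)) + 12 * (2 : ℝ) ^ k := by
  have h1 := dyadic N K (2 ^ k) hK Nat.one_le_two_pow
  have h2 := primes_pow (k + 1) (by omega)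
  have hK0 : (0 : ℝ) < K := by exact_mod_cast hK
  have e1 : 2 * 2 ^ k = 2 ^ (k + 1) := by rw [pow_succ]; ring
  have h3 : ((Dy K N k).card : ℝ) ≤
      (((Finset.Icc 1 (2 ^ (k + 1))).filter Nat.Prime).card : ℝ) *
        (((N / (K * 2 ^ k) : ℕ) : ℝ) + 1) := by
    rw [e1] at h1
    unfold Dy
    rw [e1]
    exact_mod_cast h1
  have h4 : (((N / (K * 2 ^ k) : ℕ) : ℝ)) ≤ N / (K * 2 ^ k) := by
    refine Nat.cast_div_le.trans ?_
    push_cast
    exact le_rfl
  have h5 : (0 : ℝ) < ((k + 1 : ℕ) : ℝ) := by positivity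
  have h6 : (1 : ℝ) ≤ ((k + 1 : ℕ) : ℝ) := by exact_mod_cast (by omega : 1 ≤ k + 1)
  have h7 : (0 : ℝ) < 2 ^ k := by positivity
  calc ((Dy K N k).card : ℝ) ≤ _ := h3
    _ ≤ (6 * (2 ^ (k + 1) / ((k + 1 : ℕ) : ℝ))) * (N / (K * 2 ^ k) + 1) :=
        mul_le_mul h2 (by linarith) (by positivity) (by positivity)
    _ = 12 * (N / K) * (1 / ((k + 1 : ℕ) : ℝ)) + 12 * (2 : ℝ) ^ k / ((k + 1 : ℕ) : ℝ) := by
        rw [pow_succ]
        field_simp
        ring
    _ ≤ _ := by
        have : 12 * (2 : ℝ) ^ k / ((k + 1 : ℕ) : ℝ) ≤ 12 * (2 : ℝ) ^ k :=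
          div_le_self (by positivity) h6
        linarith

theorem sum_two_pow (F : Finset ℕ) (X : ℝ) (hX : 0 ≤ X) (h : ∀ k ∈ F, (2 : ℝ) ^ k ≤ X) :
    ∑ k ∈ F, (2 : ℝ) ^ k ≤ 2 * X := by
  rcases F.eq_empty_or_nonempty with h0 | h0
  · rw [h0, Finset.sum_empty]; positivity
  · have h1 := Nat.geomSum_lt (m := 2) (n := F.max' h0 + 1) (s := F) le_rfl
      (fun k hk => Nat.lt_succ_of_le (Finset.le_max' F k hk))
    have h2 := h _ (F.max'_mem h0)
    have h3 : ((∑ k ∈ F, 2 ^ k : ℕ) : ℝ) ≤ ((2 ^ (F.max' h0 + 1) : ℕ) : ℝ) := by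
      exact_mod_cast h1.le
    push_cast at h3
    rw [pow_succ] at h3
    linarith

theorem bad_subset {K N J : ℕ} (hK : 1 ≤ K) (hJ : J = Nat.log 2 N) :
    Bad K N ⊆ ((Finset.Icc 1 N).filter (fun n => IsSquare n)) ∪
      (((Sm N (2 ^ (J / K))).filter (fun n => 2 ≤ n)) ∪
        ((Finset.Icc (J / K) J).filter (fun k => K * 2 ^ k ≤ 6 * Nat.sqrt N)).biUnion
          (fun k => Dy K N k)) := by
  intro n hn
  obtain ⟨h1, h2, h3, h4⟩ := bad_prop hK hn
  rw [Finset.mem_union, Finset.mem_union]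
  by_cases hsq : IsSquare n
  · left
    rw [Finset.mem_filter, Finset.mem_Icc]
    exact ⟨⟨by omega, h2⟩, hsq⟩
  right
  rcases Nat.lt_or_ge (2 ^ (J / K)) (P n) with hP | hP
  · right
    have hP2 := (P_prime h1).1.two_le
    set k := Nat.log 2 (P n - 1) with hk
    have hk1 : 2 ^ k ≤ P n - 1 := Nat.pow_log_le_self 2 (by omega)
    have hk2 : P n - 1 < 2 ^ (k + 1) := Nat.lt_pow_succ_log_self (by norm_num) _
    have hPN : P n ≤ n := P_le (by omega)
    rw [Finset.mem_biUnion]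
    refine ⟨k, ?_, ?_⟩
    · rw [Finset.mem_filter, Finset.mem_Icc]
      refine ⟨⟨?_, ?_⟩, ?_⟩
      · rw [hk]
        exact Nat.le_log_of_pow_le (by norm_num) (by omega)
      · rw [hk, hJ]
        exact Nat.log_mono_right (by omega)
      · calc K * 2 ^ k ≤ K * P n := Nat.mul_le_mul_left K (by omega)
          _ ≤ _ := h4.le
    · unfold Dy
      rw [Finset.mem_filter, Finset.mem_Icc]
      refine ⟨⟨by omega, h2⟩, hsq, by omega, ?_, h3⟩
      rw [pow_succ] at hk2
      omega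
  · left
    rw [Finset.mem_filter, mem_Sm]
    exact ⟨⟨⟨by omega, h2⟩, fun p hp hpn => (le_P (by omega) hp hpn).trans hP⟩, h1⟩

theorem bad_bound : ∃ C : ℝ, 0 < C ∧ ∀ K N : ℕ, 1 ≤ K → 1 ≤ N →
    ((Bad K N).card : ℝ) ≤ C * (N * ((1 + Real.log K) / K)) := by
  obtain ⟨C, hC, hsm⟩ := smooth_card
  refine ⟨C + 162, by positivity, fun K N hK hN => ?_⟩
  have hK0 : (0 : ℝ) < K := by exact_mod_cast hK
  have hK1 : (1 : ℝ) ≤ K := by exact_mod_cast hK
  have hlogK : 0 ≤ Real.log K := Real.log_nonneg hK1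
  have hN0 : (0 : ℝ) < N := by exact_mod_cast hN
  rcases (Bad K N).eq_empty_or_nonempty with h0 | ⟨n0, hn0⟩
  · rw [h0, Finset.card_empty]
    simp only [Nat.cast_zero]
    positivity
  obtain ⟨q1, q2, q3, q4⟩ := bad_prop hK hn0
  have hN2 : 2 ≤ N := by omega
  set S := Nat.sqrt N with hS
  have hSS : S * S ≤ N := Nat.sqrt_le N
  have hS1 : 1 ≤ S := Nat.sqrt_pos.mpr (by omega)
  have hP2 := (P_prime q1).1.two_le
  have hKS : K ≤ 3 * S := by
    have : K * 2 ≤ K * P n0 := Nat.mul_le_mul_left K hP2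
    omega
  have hSr : (S : ℝ) ≤ 3 * (N / K) := by
    have h1 : ((K * S : ℕ) : ℝ) ≤ ((3 * (S * S) : ℕ) : ℝ) := by
      have : K * S ≤ 3 * S * S := Nat.mul_le_mul_right S hKS
      have e : 3 * S * S = 3 * (S * S) := by ring
      rw [e] at this
      exact_mod_cast this
    have h2 : ((3 * (S * S) : ℕ) : ℝ) ≤ ((3 * N : ℕ) : ℝ) := by
      exact_mod_cast Nat.mul_le_mul_left 3 hSS
    push_cast at h1 h2
    rw [← mul_div_assoc, le_div_iff₀ hK0]
    linarith
  have hSN : (S : ℝ) ≤ N := by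
    have : S ≤ N := by nlinarith
    exact_mod_cast this
  set J := Nat.log 2 N with hJ
  have hJN : 2 ^ J ≤ N := Nat.pow_log_le_self 2 (by omega)
  have hlog2 : 0 < Real.log 2 := Real.log_pos (by norm_num)
  have hlogN : 0 < Real.log N := Real.log_pos (by exact_mod_cast hN2)
  have hJlog : (J : ℝ) * Real.log 2 ≤ Real.log N := by
    rw [← Real.log_pow]
    apply Real.log_le_log (by positivity)
    exact_mod_cast hJN
  -- squares
  have b1 : ((((Finset.Icc 1 N).filter (fun n => IsSquare n)).card : ℕ) : ℝ) ≤ S := by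
    exact_mod_cast card_sq N
  -- smooth numbers
  have b2 : (((Sm N (2 ^ (J / K))).filter (fun n => 2 ≤ n)).card : ℝ) ≤ S + C * (N / K) := by
    rcases Nat.eq_zero_or_pos (J / K) with hq | hq
    · rw [hq, pow_zero]
      have : (Sm N 1).filter (fun n => 2 ≤ n) = ∅ := by
        rw [Finset.filter_eq_empty_iff]
        intro n hn hn2
        have h1 := (mem_Sm.mp hn).2 _ (Nat.minFac_prime (n := n) (by omega)) (Nat.minFac_dvd n)
        have h2 := (Nat.minFac_prime (n := n) (by omega)).two_le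
        omega
      rw [this, Finset.card_empty]
      simp only [Nat.cast_zero]
      positivity
    · have hy2 : 2 ≤ 2 ^ (J / K) := by
        calc 2 = 2 ^ 1 := by norm_num
          _ ≤ _ := Nat.pow_le_pow_right (by norm_num) hq
      have h1 := hsm N (2 ^ (J / K)) (by omega) hy2
      have h2 : Real.log ((2 ^ (J / K) : ℕ) : ℝ) ≤ Real.log N / K := by
        push_cast
        rw [Real.log_pow]
        have h3 : ((J / K : ℕ) : ℝ) ≤ J / K := Nat.cast_div_le
        calc ((J / K : ℕ) : ℝ) * Real.log 2 ≤ J / K * Real.log 2 :=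
              mul_le_mul_of_nonneg_right h3 hlog2.le
          _ = (J * Real.log 2) / K := by ring
          _ ≤ _ := div_le_div_of_nonneg_right hJlog hK0.le
      have h3 : ((Sm N (2 ^ (J / K))).card : ℝ) * Real.log N ≤
          (S + C * (N / K)) * Real.log N := by
        refine h1.trans ?_
        have h4 : C * (N * Real.log ((2 ^ (J / K) : ℕ) : ℝ)) ≤ C * (N * (Real.log N / K)) :=
          mul_le_mul_of_nonneg_left (mul_le_mul_of_nonneg_left h2 hN0.le) hC.le
        have e : (S + C * (N / K)) * Real.log N =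
            S * Real.log N + C * (N * (Real.log N / K)) := by ring
        rw [e]
        linarith
      have h4 := le_of_mul_le_mul_right h3 hlogN
      refine le_trans ?_ h4
      exact_mod_cast Finset.card_filter_le _ _
  -- dyadic parts
  set F := (Finset.Icc (J / K) J).filter (fun k => K * 2 ^ k ≤ 6 * S) with hF
  have b3 : ((F.biUnion (fun k => Dy K N k)).card : ℝ) ≤
      12 * (N / K) * (1 + Real.log K) + 144 * (N / K) := by
    have c1 : ((F.biUnion (fun k => Dy K N k)).card : ℝ) ≤ ∑ k ∈ F, ((Dy K N k).card : ℝ) := by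
      exact_mod_cast Finset.card_biUnion_le
    have c2 : ∑ k ∈ F, ((Dy K N k).card : ℝ) ≤
        ∑ k ∈ F, (12 * (N / K) * (1 / ((k + 1 : ℕ) : ℝ)) + 12 * (2 : ℝ) ^ k) :=
      Finset.sum_le_sum fun k _ => Dy_card K N k hK
    rw [Finset.sum_add_distrib, ← Finset.mul_sum, ← Finset.mul_sum] at c2
    have c3 : ∑ k ∈ F, (1 / ((k + 1 : ℕ) : ℝ)) ≤ 1 + Real.log K := by
      calc ∑ k ∈ F, (1 / ((k + 1 : ℕ) : ℝ)) ≤
            ∑ k ∈ Finset.Icc (J / K) J, (1 / ((k + 1 : ℕ) : ℝ)) :=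
            Finset.sum_le_sum_of_subset_of_nonneg (Finset.filter_subset _ _)
              (fun k _ _ => by positivity)
        _ = ∑ i ∈ Finset.Icc (J / K + 1) (J + 1), (1 : ℝ) / i := by
            rw [← Finset.map_add_right_Icc, Finset.sum_map]
            rfl
        _ ≤ 1 + Real.log (((J + 1 : ℕ) : ℝ) / ((J / K + 1 : ℕ) : ℝ)) :=
            sum_one_div _ _ (Nat.le_add_left 1 _) (by
              have := Nat.div_le_self J K
              omega)
        _ ≤ 1 + Real.log K := by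
            have h1 : (0 : ℝ) < ((J + 1 : ℕ) : ℝ) := by positivity
            have h2 : (0 : ℝ) < ((J / K + 1 : ℕ) : ℝ) := by positivity
            have h3 : ((J + 1 : ℕ) : ℝ) / ((J / K + 1 : ℕ) : ℝ) ≤ K := by
              rw [div_le_iff₀ h2]
              have h4 : J + 1 ≤ K * (J / K + 1) := Nat.lt_mul_div_succ J hK
              exact_mod_cast h4
            have := Real.log_le_log (by positivity) h3
            linarith
    have c4 : ∑ k ∈ F, (2 : ℝ) ^ k ≤ 2 * (6 * S / K) := by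
      apply sum_two_pow _ _ (by positivity)
      intro k hk
      rw [hF, Finset.mem_filter] at hk
      rw [le_div_iff₀ hK0, mul_comm]
      exact_mod_cast hk.2
    have c5 : 12 * (N / K) * ∑ k ∈ F, (1 / ((k + 1 : ℕ) : ℝ)) ≤
        12 * (N / K) * (1 + Real.log K) :=
      mul_le_mul_of_nonneg_left c3 (by positivity)
    have c6 : 12 * ∑ k ∈ F, (2 : ℝ) ^ k ≤ 144 * (N / K) := by
      have h1 : 6 * (S : ℝ) / K ≤ 6 * N / K :=
        div_le_div_of_nonneg_right (by linarith) hK0.le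
      have h2 : 6 * (N : ℝ) / K = 6 * (N / K) := by ring
      linarith
    linarith
  have key : ((Bad K N).card : ℝ) ≤ S + ((S + C * (N / K)) +
      (12 * (N / K) * (1 + Real.log K) + 144 * (N / K))) := by
    have h1 := Finset.card_le_card (bad_subset hK hJ)
    have h2 := h1.trans ((Finset.card_union_le _ _).trans
      (Nat.add_le_add_left (Finset.card_union_le _ _) _))
    have h3 : ((Bad K N).card : ℝ) ≤
        ((((Finset.Icc 1 N).filter (fun n => IsSquare n)).card : ℕ) : ℝ) +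
        ((((Sm N (2 ^ (J / K))).filter (fun n => 2 ≤ n)).card : ℝ) +
          ((F.biUnion (fun k => Dy K N k)).card : ℝ)) := by
      exact_mod_cast h2
    linarith
  have hNK : 0 ≤ (N : ℝ) / K := by positivity
  have e : (C + 162) * (N * ((1 + Real.log K) / K)) =
      (C + 162) * (N / K) * (1 + Real.log K) := by ring
  rw [e]
  nlinarith [mul_nonneg hNK hlogK, mul_nonneg (mul_nonneg hC.le hNK) hlogK]

end Pool.Agent.H44.SQ
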