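import Pool.Agent.H44.SQ.Count

/-!
# The numbers with `P(n)^2 ∣ n`, and the normal order of `t_n`
-/

set_option autoImplicit false
open Finset Filter
open scoped Classical

namespace Pool.Agent.H44.SQ

theorem low_bound : ∃ C : ℝ, 0 < C ∧ ∀ N : ℕ, 3 ≤ N →
    (((Finset.Icc 2 N).filter (fun n => P n ^ 2 ∣ n)).card : ℝ) ≤
      C * (N * ((1 + Real.log (Real.log N)) / Real.log N)) := by
  obtain ⟨C, hC, hsm⟩ := smooth_card
  refine ⟨3 + 2 * C, by positivity, fun N hN => ?_⟩
  have hN0 : (0 : ℝ) < N := by exact_mod_cast (by omega : 0 < N)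
  have hlog1 : 1 ≤ Real.log N := by
    rw [Real.le_log_iff_exp_le hN0]
    have h1 := Real.exp_one_lt_d9
    have h2 : (3 : ℝ) ≤ N := by exact_mod_cast hN
    linarith
  have hlog0 : 0 < Real.log N := by linarith
  have hll : 0 ≤ Real.log (Real.log N) := Real.log_nonneg hlog1
  set S := Nat.sqrt N with hS
  have hSS : S * S ≤ N := Nat.sqrt_le N
  have hS2 : N < (S + 1) * (S + 1) := Nat.lt_succ_sqrt N
  have hSlog : Real.log N ≤ 2 * S := by
    have h1 : Real.log N ≤ Real.log (((S + 1) * (S + 1) : ℕ) : ℝ) :=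
      Real.log_le_log hN0 (by exact_mod_cast hS2.le)
    push_cast at h1
    have h2 : (0 : ℝ) < (S : ℝ) + 1 := by positivity
    rw [Real.log_mul h2.ne' h2.ne'] at h1
    have h3 := Real.log_le_sub_one_of_pos h2
    linarith
  set J := Nat.log 2 N with hJ
  have hJN : 2 ^ J ≤ N := Nat.pow_log_le_self 2 (by omega)
  have hJ2 : N < 2 ^ (J + 1) := Nat.lt_pow_succ_log_self (by norm_num) N
  have hJ1 : 1 ≤ J := by
    by_contra hc
    have : J = 0 := by omega
    rw [this] at hJ2
    norm_num at hJ2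
    omega
  have hlog2 : 0.6931471803 < Real.log 2 := Real.log_two_gt_d9
  have hlog2' : Real.log 2 < 0.6931471808 := Real.log_two_lt_d9
  have hJa : (J : ℝ) * Real.log 2 ≤ Real.log N := by
    rw [← Real.log_pow]
    apply Real.log_le_log (by positivity)
    exact_mod_cast hJN
  have hJb : Real.log N ≤ ((J + 1 : ℕ) : ℝ) * Real.log 2 := by
    rw [← Real.log_pow]
    apply Real.log_le_log hN0
    exact_mod_cast hJ2.le
  have hJr : (1 : ℝ) ≤ J := by exact_mod_cast hJ1
  set y := J + 1 with hy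
  have hyN : y ≤ N := by
    have : J < 2 ^ J := Nat.lt_two_pow_self
    omega
  have hy0 : (0 : ℝ) < (y : ℝ) := by positivity
  have hylog : Real.log N ≤ y := by
    have : (y : ℝ) * Real.log 2 ≤ y * 1 := mul_le_mul_of_nonneg_left (by linarith) hy0.le
    linarith
  have hy3 : (y : ℝ) ≤ 3 * Real.log N := by
    rw [hy]
    push_cast
    nlinarith
  have hlogy : Real.log y ≤ 2 * (1 + Real.log (Real.log N)) := by
    have h1 := Real.log_le_log hy0 hy3
    rw [Real.log_mul (by norm_num) hlog0.ne'] at h1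
    have h2 := Real.log_le_sub_one_of_pos (by norm_num : (0 : ℝ) < 3)
    linarith
  -- the covering
  have hsub : (Finset.Icc 2 N).filter (fun n => P n ^ 2 ∣ n) ⊆
      Sm N y ∪ (Finset.Ioc y N).biUnion (fun m => (Finset.Ioc 0 N).filter (fun n => m ^ 2 ∣ n)) := by
    intro n hn
    rw [Finset.mem_filter, Finset.mem_Icc] at hn
    obtain ⟨⟨h1, h2⟩, h3⟩ := hn
    rw [Finset.mem_union]
    rcases Nat.lt_or_ge y (P n) with hP | hP
    · right
      rw [Finset.mem_biUnion]
      refine ⟨P n, Finset.mem_Ioc.mpr ⟨hP, (P_le (by omega)).trans h2⟩, ?_⟩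
      rw [Finset.mem_filter, Finset.mem_Ioc]
      exact ⟨⟨by omega, h2⟩, h3⟩
    · left
      rw [mem_Sm]
      exact ⟨⟨by omega, h2⟩, fun p hp hpn => (le_P (by omega) hp hpn).trans hP⟩
  have b1 : (((Finset.Icc 2 N).filter (fun n => P n ^ 2 ∣ n)).card : ℝ) ≤
      ((Sm N y).card : ℝ) + N / y := by
    have h1 := (Finset.card_le_card hsub).trans ((Finset.card_union_le _ _).trans
      (Nat.add_le_add_left Finset.card_biUnion_le _))
    have h2 : (((Finset.Icc 2 N).filter (fun n => P n ^ 2 ∣ n)).card : ℝ) ≤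
        ((Sm N y).card : ℝ) + ∑ m ∈ Finset.Ioc y N,
          ((((Finset.Ioc 0 N).filter (fun n => m ^ 2 ∣ n)).card : ℕ) : ℝ) := by
      exact_mod_cast h1
    have h3 : ∑ m ∈ Finset.Ioc y N,
          ((((Finset.Ioc 0 N).filter (fun n => m ^ 2 ∣ n)).card : ℕ) : ℝ) ≤
        ∑ m ∈ Finset.Ioc y N, (N : ℝ) * ((m : ℝ) ^ 2)⁻¹ := by
      refine Finset.sum_le_sum fun m _ => ?_
      rw [Nat.Ioc_filter_dvd_card_eq_div]
      refine Nat.cast_div_le.trans ?_
      push_cast
      rw [div_eq_mul_inv]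
    rw [← Finset.mul_sum] at h3
    have h4 := sum_Ioc_inv_sq_le_sub (α := ℝ) (k := y) (n := N) (by omega) hyN
    have h5 : (N : ℝ) * ∑ m ∈ Finset.Ioc y N, ((m : ℝ) ^ 2)⁻¹ ≤ N / y := by
      rw [div_eq_mul_inv]
      apply mul_le_mul_of_nonneg_left _ hN0.le
      have : (0 : ℝ) ≤ (N : ℝ)⁻¹ := by positivity
      linarith
    linarith
  have b2 := hsm N y (by omega) (by omega)
  have b3 : (N : ℝ) / y * Real.log N ≤ N := by
    rw [div_mul_eq_mul_div, div_le_iff₀ hy0]
    exact mul_le_mul_of_nonneg_left hylog hN0.le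
  have b4 : (S : ℝ) * Real.log N ≤ 2 * N := by
    have h1 : (S : ℝ) * Real.log N ≤ S * (2 * S) :=
      mul_le_mul_of_nonneg_left hSlog (Nat.cast_nonneg _)
    have h2 : (S : ℝ) * S ≤ N := by exact_mod_cast hSS
    linarith
  have b5 : C * (N * Real.log y) ≤ C * (N * (2 * (1 + Real.log (Real.log N)))) :=
    mul_le_mul_of_nonneg_left (mul_le_mul_of_nonneg_left hlogy hN0.le) hC.le
  have b6 : (((Finset.Icc 2 N).filter (fun n => P n ^ 2 ∣ n)).card : ℝ) * Real.log N ≤
      (3 + 2 * C) * (N * (1 + Real.log (Real.log N))) := by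
    have h1 := mul_le_mul_of_nonneg_right b1 hlog0.le
    rw [add_mul] at h1
    have h2 : 0 ≤ (N : ℝ) * Real.log (Real.log N) := by positivity
    nlinarith
  rw [← le_div_iff₀ hlog0] at b6
  refine b6.trans (le_of_eq ?_)
  ring

theorem g_tendsto : Tendsto (fun x : ℝ => (1 + Real.log x) / x) atTop (nhds 0) := by
  have h1 := Real.tendsto_pow_log_div_mul_add_atTop 1 0 1 one_ne_zero
  have h2 : Tendsto (fun x : ℝ => x⁻¹) atTop (nhds 0) := tendsto_inv_atTop_zero
  have h3 := h2.add h1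
  rw [add_zero] at h3
  refine h3.congr fun x => ?_
  rw [add_div, one_div, pow_one, one_mul, add_zero]

theorem dens (ω : ℕ → ℝ) (hω : Tendsto ω atTop atTop) :
    Tendsto (fun N : ℕ => (((Finset.Icc 2 N).filter
      (fun n => ¬ (P n ≤ tt n ∧ (tt n : ℝ) ≤ ω n * P n))).card : ℝ) / N) atTop (nhds 0) := by
  obtain ⟨C, hC, hb⟩ := bad_bound
  obtain ⟨C', hC', hl⟩ := low_bound
  rw [Metric.tendsto_atTop]
  intro ε hε
  -- choice of K
  have h1 : Tendsto (fun K : ℕ => C * ((1 + Real.log K) / K)) atTop (nhds 0) := by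
    have := (g_tendsto.comp tendsto_natCast_atTop_atTop).const_mul C
    rwa [mul_zero] at this
  obtain ⟨K, hK, hK1⟩ := ((h1.eventually (gt_mem_nhds (by positivity : 0 < ε / 3))).and
    (eventually_ge_atTop 1)).exists
  obtain ⟨n0, hn0⟩ := (hω.eventually (eventually_ge_atTop (K : ℝ))).exists_forall_of_atTop
  have h2 : Tendsto (fun N : ℕ => C' * ((1 + Real.log (Real.log N)) / Real.log N)) atTop
      (nhds 0) := by
    have := (g_tendsto.comp (Real.tendsto_log_atTop.comp tendsto_natCast_atTop_atTop)).const_mul C'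
    rwa [mul_zero] at this
  have h3 : Tendsto (fun N : ℕ => (n0 : ℝ) / N) atTop (nhds 0) :=
    tendsto_const_div_atTop_nhds_zero_nat (n0 : ℝ)
  obtain ⟨N1, hN1⟩ := (((h2.eventually (gt_mem_nhds (by positivity : 0 < ε / 3))).and
    (h3.eventually (gt_mem_nhds (by positivity : 0 < ε / 3)))).and
    (eventually_ge_atTop 3)).exists_forall_of_atTop
  refine ⟨N1, fun N hN => ?_⟩
  obtain ⟨⟨g2, g3⟩, hN3⟩ := hN1 N hN
  have hNpos : (0 : ℝ) < N := by exact_mod_cast (by omega : 0 < N)
  rw [dist_zero_right, Real.norm_of_nonneg (by positivity), div_lt_iff₀ hNpos]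
  have hsub : (Finset.Icc 2 N).filter (fun n => ¬ (P n ≤ tt n ∧ (tt n : ℝ) ≤ ω n * P n)) ⊆
      Finset.range n0 ∪ (Bad K N ∪ (Finset.Icc 2 N).filter (fun n => P n ^ 2 ∣ n)) := by
    intro n hn
    rw [Finset.mem_filter, Finset.mem_Icc] at hn
    obtain ⟨⟨q1, q2⟩, q3⟩ := hn
    rw [Finset.mem_union, Finset.mem_union, Finset.mem_range]
    by_cases q4 : n < n0
    · exact Or.inl q4
    · right
      by_cases q5 : P n ^ 2 ∣ n
      · right
        rw [Finset.mem_filter, Finset.mem_Icc]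
        exact ⟨⟨q1, q2⟩, q5⟩
      · left
        unfold Bad
        rw [Finset.mem_filter, Finset.mem_Icc]
        refine ⟨⟨q1, q2⟩, ?_⟩
        by_contra hc
        push Not at hc
        apply q3
        refine ⟨P_le_tt q1 q5, ?_⟩
        have h5 : (tt n : ℝ) ≤ K * P n := by exact_mod_cast hc
        refine h5.trans ?_
        exact mul_le_mul_of_nonneg_right (hn0 n (by omega)) (Nat.cast_nonneg _)
  have c1 := (Finset.card_le_card hsub).trans ((Finset.card_union_le _ _).trans
      (Nat.add_le_add_left (Finset.card_union_le _ _) _))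
  rw [Finset.card_range] at c1
  have c2 : ((((Finset.Icc 2 N).filter
      (fun n => ¬ (P n ≤ tt n ∧ (tt n : ℝ) ≤ ω n * P n))).card : ℕ) : ℝ) ≤
      n0 + (((Bad K N).card : ℝ) +
        (((Finset.Icc 2 N).filter (fun n => P n ^ 2 ∣ n)).card : ℝ)) := by
    exact_mod_cast c1
  have c3 := hb K N hK1 (by omega)
  have c4 := hl N hN3
  have c5 : C * (N * ((1 + Real.log K) / K)) < ε / 3 * N := by
    have e : C * (N * ((1 + Real.log K) / K)) = C * ((1 + Real.log K) / K) * N := by ring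
    rw [e]
    exact mul_lt_mul_of_pos_right hK hNpos
  have c6 : C' * (N * ((1 + Real.log (Real.log N)) / Real.log N)) < ε / 3 * N := by
    have e : C' * (N * ((1 + Real.log (Real.log N)) / Real.log N)) =
      C' * ((1 + Real.log (Real.log N)) / Real.log N) * N := by ring
    rw [e]
    exact mul_lt_mul_of_pos_right g2 hNpos
  have c7 : (n0 : ℝ) < ε / 3 * N := by
    rwa [div_lt_iff₀ hNpos] at g3
  linarith

end Pool.Agent.H44.SQ
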