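import Pool.Agent.H44.SQ.Self

/-!
# The upper bound is attained for `n = q (2 q - 1)` when `q` and `2 q + 1` are primes
-/

set_option autoImplicit false
open Finset
open scoped Classical

namespace Pool.Agent.H44.SQ

theorem sharp_lower (q : ℕ) (hq : q.Prime) (hq2 : q ≠ 2) (hp : (2 * q + 1).Prime) :
    3 * q ≤ tt (q * (2 * q - 1)) := by
  have hq3 : 3 ≤ q := by
    have := hq.two_le
    omega
  obtain ⟨r, rfl⟩ : ∃ r, q = r + 1 := ⟨q - 1, by omega⟩
  set q := r + 1 with hqr
  have hm : 2 * q - 1 = 2 * r + 1 := by omega
  rw [hm]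
  set n := q * (2 * r + 1) with hn
  have hn0 : n ≠ 0 := by positivity
  by_contra hc
  push Not at hc
  obtain ⟨ht, S, hne, hS, hsq⟩ := tt_spec (n := n) (Nat.one_le_iff_ne_zero.mpr hn0)
  have hmem : ∀ a ∈ S, n < a ∧ a < n + 3 * q := by
    intro a ha
    have := Finset.mem_Icc.mp (hS ha)
    omega
  have hS0 : ∀ a ∈ S, a ≠ 0 := fun a ha => by
    have := hmem a ha
    omega
  have hfac : ∀ l : ℕ, (n * ∏ a ∈ S, a).factorization l =
      n.factorization l + ∑ a ∈ S, a.factorization l := by
    intro l
    rw [Nat.factorization_mul hn0 (Finset.prod_ne_zero_iff.mpr hS0), Finsupp.add_apply]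
    rw [Nat.factorization_prod hS0, Finsupp.finsetSum_apply]
  set p := 2 * q + 1 with hpq
  -- the multiples of `q`
  have hvq : ∀ a ∈ S, a ≠ q * p → Even (a.factorization q) := by
    intro a ha hne'
    obtain ⟨h1, h2⟩ := hmem a ha
    by_cases hd : q ∣ a
    · have h3 : q ∣ a - n := Nat.dvd_sub hd (Dvd.intro _ rfl)
      obtain ⟨k, hk⟩ := h3
      have hk1 : 1 ≤ k := by
        rcases Nat.eq_zero_or_pos k with h | h
        · rw [h, mul_zero] at hk; omega
        · exact h
      have hk3 : k < 3 := by
        by_contra hc'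
        push Not at hc'
        have : q * 3 ≤ q * k := Nat.mul_le_mul_left q hc'
        omega
      have hk' : k = 1 := by
        rcases Nat.lt_or_ge k 2 with h | h
        · omega
        · exfalso
          have : k = 2 := by omega
          subst this
          apply hne'
          have : a = n + q * 2 := by omega
          rw [this, hn, hpq, hqr]
          ring
      subst hk'
      have ha2 : a = 2 * (q * q) := by
        have : a = n + q * 1 := by omega
        rw [this, hn, hqr]
        ring
      rw [ha2, Nat.factorization_mul (by norm_num) (by positivity), Finsupp.add_apply,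
        Nat.factorization_mul (by positivity) (by positivity), Finsupp.add_apply,
        hq.factorization_self,
        Nat.factorization_eq_zero_of_not_dvd (n := 2) (p := q) (by
          intro h
          have := Nat.le_of_dvd (by norm_num) h
          omega)]
      decide
    · rw [Nat.factorization_eq_zero_of_not_dvd hd]
      exact Even.zero
  -- the multiples of `p`
  have hvp : ∀ a ∈ S, a ≠ q * p → a.factorization p = 0 := by
    intro a ha hne'
    obtain ⟨h1, h2⟩ := hmem a ha
    apply Nat.factorization_eq_zero_of_not_dvd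
    rintro ⟨k, hk⟩
    have e1 : n = p * r + 1 := by
      rw [hn, hpq, hqr]
      ring
    have hk1 : r < k := by
      by_contra hc'
      push Not at hc'
      have : p * k ≤ p * r := Nat.mul_le_mul_left p hc'
      omega
    have hk2 : k ≤ q := by
      by_contra hc'
      push Not at hc'
      have h3 : p * (q + 1) ≤ p * k := Nat.mul_le_mul_left p hc'
      have h4 : p * (q + 1) = n + 4 * q + 1 := by
        rw [hn, hpq, hqr]
        ring
      omega
    have hk3 : k = q := by omega
    apply hne'
    rw [hk, hk3, mul_comm]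
  have hnq : n.factorization q = 1 := by
    rw [hn, Nat.factorization_mul (by positivity) (by positivity), Finsupp.add_apply,
      hq.factorization_self, Nat.factorization_eq_zero_of_not_dvd]
    rintro ⟨k, hk⟩
    have hk2 : k < 2 := by
      by_contra hc'
      push Not at hc'
      have : q * 2 ≤ q * k := Nat.mul_le_mul_left q hc'
      omega
    interval_cases k
    · omega
    · omega
  have hnp : n.factorization p = 0 := by
    apply Nat.factorization_eq_zero_of_not_dvd
    rw [hn]
    intro h
    rcases (hp.dvd_mul).mp h with h | h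
    · have := Nat.le_of_dvd (by omega) h
      omega
    · have := Nat.le_of_dvd (by omega) h
      omega
  by_cases h0 : q * p ∈ S
  · have h1 := even_of_isSquare hsq p
    rw [hfac, hnp, zero_add, ← Finset.add_sum_erase S _ h0] at h1
    rw [Finset.sum_eq_zero (s := S.erase (q * p)) (fun a ha => by
      rw [Finset.mem_erase] at ha
      exact hvp a ha.2 ha.1)] at h1
    rw [Nat.factorization_mul (by positivity) (by positivity), Finsupp.add_apply,
      hp.factorization_self, Nat.factorization_eq_zero_of_not_dvd (n := q) (p := p) (by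
        intro h
        have := Nat.le_of_dvd (by omega) h
        omega)] at h1
    exact absurd h1 (by decide)
  · have h1 := even_of_isSquare hsq q
    rw [hfac, hnq] at h1
    have h2 : Even (∑ a ∈ S, a.factorization q) := by
      apply Finset.even_sum
      intro a ha
      exact hvq a ha (fun h => h0 (h ▸ ha))
    rw [Nat.even_add] at h1
    exact absurd (h1.mpr h2) (by decide)

theorem sqrt_sharp (q : ℕ) (hq : 1 ≤ q) : Nat.sqrt (q * (2 * q - 1) / 2) = q - 1 := by
  obtain ⟨r, rfl⟩ : ∃ r, q = r + 1 := ⟨q - 1, by omega⟩
  have hm : 2 * (r + 1) - 1 = 2 * r + 1 := by omega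
  have e : (r + 1) * (2 * r + 1) = 2 * (r * r) + 3 * r + 1 := by ring
  rw [hm, e]
  symm
  rw [Nat.eq_sqrt]
  have e2 : (r + 1 - 1 + 1) * (r + 1 - 1 + 1) = r * r + 2 * r + 1 := by
    rw [Nat.add_sub_cancel]; ring
  rw [e2, Nat.add_sub_cancel]
  constructor
  · omega
  · omega

theorem sharp (q : ℕ) (hq : q.Prime) (hq2 : q ≠ 2) (hp : (2 * q + 1).Prime) :
    tt (q * (2 * q - 1)) = 3 * q := by
  apply le_antisymm _ (sharp_lower q hq hq2 hp)
  have hq1 := hq.two_le
  have hn1 : 1 ≤ q * (2 * q - 1) := Nat.one_le_iff_ne_zero.mpr
    (mul_ne_zero (by omega) (by omega))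
  refine (tt_le_max hn1).trans (max_le ?_ ?_)
  · unfold P
    apply Finset.sup_le
    intro l hl
    have hlp := Nat.prime_of_mem_primeFactors hl
    rcases (hlp.dvd_mul).mp (Nat.dvd_of_mem_primeFactors hl) with h | h
    · have := Nat.le_of_dvd (by omega) h
      simp only [id]
      omega
    · have := Nat.le_of_dvd (by omega) h
      simp only [id]
      omega
  · rw [sqrt_sharp q (by omega)]
    omega

/-- `t_n = P(n)` if `P(n)` is large -/
theorem tt_eq {n : ℕ} (hn : 2 ≤ n) (h : 3 * Nat.sqrt (n / 2) + 3 ≤ P n) : tt n = P n := by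
  apply le_antisymm
  · have := tt_le_max (n := n) (by omega)
    rwa [max_eq_left h] at this
  · apply P_le_tt hn
    intro hd
    have h1 := Nat.le_of_dvd (by omega) hd
    set s := Nat.sqrt (n / 2) with hs
    have h2 : n / 2 < (s + 1) * (s + 1) := Nat.lt_succ_sqrt _
    have h3 : (3 * s + 3) ^ 2 ≤ P n ^ 2 := Nat.pow_le_pow_left h 2
    have h4 : n < 2 * ((s + 1) * (s + 1)) := by omega
    nlinarith

end Pool.Agent.H44.SQ
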