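import Pool.Agent.H44.SQ.Core
import Mathlib.NumberTheory.Chebyshev

/-! # Many `n` with very small `t_n`: counting (MP_51b47a_nt) -/

set_option autoImplicit false
open scoped Classical

namespace Pool.Agent.H44.SQ

/-- exceptional smooth numbers -/
theorem smooth_exc (A : Finset ℕ) (N y L : ℕ) (hL : 1 ≤ L) (hA : A ⊆ Finset.Icc 1 N)
    (h1 : ∀ n ∈ A, ¬ IsSquare n) (h2 : ∀ n ∈ A, ∀ p : ℕ, p.Prime → p ∣ n → p ≤ y)
    (h3 : ∀ n ∈ A, L < tt n) :
    A.card ≤ ((Finset.Icc 1 y).filter Nat.Prime).card * (N / L + 1) := by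
  refine window_card A N L _ hL hA ?_
  intro W hW hWL
  refine card_le_primes W y (fun m hm => ?_) (fun m hm => h2 m (hW hm)) (bad_indep L W ?_ hWL)
  · have := (Finset.mem_Icc.mp (hA (hW hm))).1
    omega
  · intro m hm
    exact ⟨(Finset.mem_Icc.mp (hA (hW hm))).1, h1 m (hW hm), h3 m (hW hm)⟩

/-- products of `k` different primes `≤ y` -/
noncomputable def Pr (y k : ℕ) : Finset ℕ :=
  (((Finset.Icc 1 y).filter Nat.Prime).powersetCard k).image (fun D => ∏ p ∈ D, p)

theorem Pr_card (y k : ℕ) :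
    (Pr y k).card = (((Finset.Icc 1 y).filter Nat.Prime).card).choose k := by
  unfold Pr
  rw [Finset.card_image_of_injOn, Finset.card_powersetCard]
  intro D hD D' hD' h
  have hD1 := Finset.mem_powersetCard.mp hD
  have hD2 := Finset.mem_powersetCard.mp hD'
  have e1 : (∏ p ∈ D, p).primeFactors = D :=
    Nat.primeFactors_prod fun p hp => (Finset.mem_filter.mp (hD1.1 hp)).2
  have e2 : (∏ p ∈ D', p).primeFactors = D' :=
    Nat.primeFactors_prod fun p hp => (Finset.mem_filter.mp (hD2.1 hp)).2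
  simp only at h
  rw [← e1, ← e2, h]

theorem Pr_prop {y k n : ℕ} (hk : 1 ≤ k) (hn : n ∈ Pr y k) :
    1 ≤ n ∧ n ≤ y ^ k ∧ ¬ IsSquare n ∧ ∀ p : ℕ, p.Prime → p ∣ n → p ≤ y := by
  unfold Pr at hn
  obtain ⟨D, hD, rfl⟩ := Finset.mem_image.mp hn
  obtain ⟨hD1, hD2⟩ := Finset.mem_powersetCard.mp hD
  have hpr : ∀ p ∈ D, p.Prime := fun p hp => (Finset.mem_filter.mp (hD1 hp)).2
  have hle : ∀ p ∈ D, p ≤ y := fun p hp =>
    (Finset.mem_Icc.mp (Finset.mem_filter.mp (hD1 hp)).1).2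
  have hpf : ∀ D' ⊆ D, (∏ p ∈ D', p).primeFactors = D' := fun D' h =>
    Nat.primeFactors_prod fun p hp => hpr p (h hp)
  have hpos : 0 < ∏ p ∈ D, p := Finset.prod_pos fun p hp => (hpr p hp).pos
  refine ⟨hpos, ?_, ?_, ?_⟩
  · rw [← hD2]
    exact Finset.prod_le_pow_card D (fun p => p) y hle
  · rintro ⟨r, hr⟩
    obtain ⟨p, hp⟩ : D.Nonempty := Finset.card_pos.mp (by omega)
    have hp1 := hpr p hp
    have hpd : p ∣ ∏ q ∈ D, q := Finset.dvd_prod_of_mem (fun q => q) hp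
    have hpr2 : p ∣ r := by
      rw [hr] at hpd
      rcases hp1.dvd_mul.mp hpd with h | h <;> exact h
    have hsq : p * p ∣ ∏ q ∈ D, q := by
      rw [hr]
      exact mul_dvd_mul hpr2 hpr2
    rw [← Finset.mul_prod_erase D (fun q => q) hp] at hsq
    have h3 : p ∣ ∏ q ∈ D.erase p, q := Nat.dvd_of_mul_dvd_mul_left hp1.pos hsq
    have h4 : p ∈ (∏ q ∈ D.erase p, q).primeFactors := by
      rw [Nat.mem_primeFactors]
      refine ⟨hp1, h3, ?_⟩
      exact (Finset.prod_pos fun q hq => (hpr q (Finset.mem_of_mem_erase hq)).pos).ne'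
    rw [hpf _ (Finset.erase_subset _ _)] at h4
    exact (Finset.notMem_erase p D) h4
  · intro p hp hpd
    have : p ∈ (∏ q ∈ D, q).primeFactors := Nat.mem_primeFactors.mpr ⟨hp, hpd, hpos.ne'⟩
    rw [hpf D (Finset.Subset.refl _)] at this
    exact hle p this

theorem many (y k L : ℕ) (hk : 1 ≤ k) (hL : 1 ≤ L) :
    (((Finset.Icc 1 y).filter Nat.Prime).card).choose k ≤
      ((Finset.Icc 1 (y ^ k)).filter (fun n => tt n ≤ L)).card +
        ((Finset.Icc 1 y).filter Nat.Prime).card * (y ^ k / L + 1) := by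
  rw [← Pr_card]
  have h1 : Pr y k ⊆ ((Finset.Icc 1 (y ^ k)).filter (fun n => tt n ≤ L)) ∪
      (Pr y k).filter (fun n => L < tt n) := by
    intro n hn
    rw [Finset.mem_union, Finset.mem_filter, Finset.mem_filter, Finset.mem_Icc]
    have := Pr_prop hk hn
    rcases le_or_gt (tt n) L with h | h
    · exact Or.inl ⟨⟨this.1, this.2.1⟩, h⟩
    · exact Or.inr ⟨hn, h⟩
  refine (Finset.card_le_card h1).trans ((Finset.card_union_le _ _).trans ?_)
  refine Nat.add_le_add_left ?_ _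
  refine smooth_exc _ (y ^ k) y L hL ?_ ?_ ?_ ?_
  · intro n hn
    have := Pr_prop hk (Finset.mem_of_mem_filter n hn)
    exact Finset.mem_Icc.mpr ⟨this.1, this.2.1⟩
  · intro n hn
    exact (Pr_prop hk (Finset.mem_of_mem_filter n hn)).2.2.1
  · intro n hn
    exact (Pr_prop hk (Finset.mem_of_mem_filter n hn)).2.2.2
  · intro n hn
    exact (Finset.mem_filter.mp hn).2

theorem primes_ge (y : ℕ) (hy : 256 ≤ y) :
    (y : ℝ) / 2 / Real.log y ≤ (((Finset.Icc 1 y).filter Nat.Prime).card : ℝ) := by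
  have e : ((Finset.Icc 1 y).filter Nat.Prime).card = Nat.primeCounting y := by
    rw [Nat.primeCounting, Nat.primeCounting', Nat.count_eq_card_filter_range]
    congr 1
    ext p
    simp only [Finset.mem_filter, Finset.mem_Icc, Finset.mem_range]
    constructor
    · rintro ⟨⟨h1, h2⟩, h3⟩
      exact ⟨by omega, h3⟩
    · rintro ⟨h1, h3⟩
      exact ⟨⟨h3.pos, by omega⟩, h3⟩
  rw [e]
  refine le_trans ?_ (Chebyshev.pi_ge y)
  have hy' : (256 : ℝ) ≤ y := by exact_mod_cast hy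
  have hlog : 0 < Real.log y := Real.log_pos (by linarith)
  refine div_le_div_of_nonneg_right ?_ hlog.le
  have h1 : Real.log ((y : ℝ) + 1) ≤ (y : ℝ) / 8 := by
    have h2 : Real.log ((y : ℝ) + 1) = 2 * Real.log (√((y : ℝ) + 1)) := by
      rw [Real.log_sqrt (by linarith)]
      ring
    have h3 : Real.log (√((y : ℝ) + 1)) ≤ √((y : ℝ) + 1) - 1 :=
      Real.log_le_sub_one_of_pos (Real.sqrt_pos.mpr (by linarith))
    have h4 : √((y : ℝ) + 1) ≤ 1 + y / 16 := by
      rw [Real.sqrt_le_left (by linarith)]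
      nlinarith
    linarith
  have h5 := Real.log_two_gt_d9
  nlinarith

end Pool.Agent.H44.SQ
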