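import Pool.Agent.H44.SQ.Small

/-! # Many `n` with very small `t_n`: parameters (MP_51b47a_nt) -/

set_option autoImplicit false
open scoped Classical

namespace Pool.Agent.H44.SQ

theorem count_k (k : ℕ) (hk : 8 ≤ k) : ((k ^ k : ℕ) : ℝ) ^ k / ((k ^ k : ℕ) : ℝ) ^ 5 ≤
    (((Finset.Icc 1 ((k ^ k) ^ k)).filter (fun n => tt n ≤ (k ^ k) ^ 6)).card : ℝ) := by
  set y : ℕ := k ^ k with hy
  have h8 : k ^ 8 ≤ y := Nat.pow_le_pow_right (by omega) hk
  have h256 : 256 ≤ y := by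
    have : 8 ^ 8 ≤ k ^ 8 := Nat.pow_le_pow_left hk 8
    omega
  have hkR : (8 : ℝ) ≤ k := by exact_mod_cast hk
  have hk0 : (0 : ℝ) < k := by linarith
  have h4 : 4 * (k : ℝ) ^ 3 ≤ y := by
    have h1 : 4 * k ^ 3 ≤ k ^ 8 := by
      have h2 : 4 ≤ k ^ 5 := by
        have : 8 ^ 5 ≤ k ^ 5 := Nat.pow_le_pow_left hk 5
        omega
      calc 4 * k ^ 3 ≤ k ^ 5 * k ^ 3 := Nat.mul_le_mul_right _ h2
        _ = k ^ 8 := by ring
    exact_mod_cast h1.trans h8
  have hyR : (256 : ℝ) ≤ y := by exact_mod_cast h256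
  have hy0 : (0 : ℝ) < y := by linarith
  have hlog : Real.log y ≤ (k : ℝ) ^ 2 := by
    rw [hy]
    push_cast
    rw [Real.log_pow, sq]
    have := Real.log_le_sub_one_of_pos hk0
    exact mul_le_mul_of_nonneg_left (by linarith) hk0.le
  have hlog0 : 0 < Real.log y := Real.log_pos (by linarith)
  set q : ℕ := ((Finset.Icc 1 y).filter Nat.Prime).card with hq
  have hq1 : (y : ℝ) / (2 * (k : ℝ) ^ 2) ≤ q := by
    refine le_trans ?_ (primes_ge y h256)
    rw [← div_div]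
    exact div_le_div_of_nonneg_left (by positivity) hlog0 hlog
  have hq2 : (q : ℝ) ≤ y := by
    have : q ≤ y := by
      refine (Finset.card_filter_le _ _).trans ?_
      rw [Nat.card_Icc]
      omega
    exact_mod_cast this
  -- lower bound of the binomial coefficient
  have hC : (y : ℝ) ^ k / (y : ℝ) ^ 4 ≤ (q.choose k : ℝ) := by
    have h1 : (y : ℝ) / (4 * (k : ℝ) ^ 2) ≤ ((q + 1 - k : ℕ) : ℝ) := by
      have h2 : (q : ℝ) - k ≤ ((q + 1 - k : ℕ) : ℝ) := by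
        have : q ≤ (q + 1 - k) + k := by omega
        have : (q : ℝ) ≤ ((q + 1 - k : ℕ) : ℝ) + k := by exact_mod_cast this
        linarith
      have h3 : (k : ℝ) ≤ (y : ℝ) / (4 * (k : ℝ) ^ 2) := by
        rw [le_div_iff₀ (by positivity)]
        nlinarith [h4]
      have h5 : (y : ℝ) / (2 * (k : ℝ) ^ 2) = (y : ℝ) / (4 * (k : ℝ) ^ 2) + (y : ℝ) / (4 * (k : ℝ) ^ 2) := by
        field_simp
        norm_num
      linarith
    have h6 : ((q + 1 - k : ℕ) : ℝ) ^ k / (k.factorial : ℝ) ≤ (q.choose k : ℝ) := by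
      exact_mod_cast Nat.pow_le_choose (α := ℝ) k q
    refine le_trans ?_ h6
    have h7 : (k.factorial : ℝ) ≤ (k : ℝ) ^ k := by exact_mod_cast Nat.factorial_le_pow k
    have h8' : (y : ℝ) ^ k / (y : ℝ) ^ 4 = ((y : ℝ) / (k : ℝ) ^ 3 / k) ^ k := by
      rw [div_pow, div_pow]
      have : (y : ℝ) ^ 4 = ((k : ℝ) ^ 3) ^ k * (k : ℝ) ^ k := by
        rw [hy]
        push_cast
        rw [← pow_mul, ← pow_mul, ← pow_add]
        congr 1
        ring
      rw [this, div_div]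
    have h9 : ((y : ℝ) / (k : ℝ) ^ 3 / k) ^ k ≤ ((y : ℝ) / (4 * (k : ℝ) ^ 2) / k) ^ k := by
      refine pow_le_pow_left₀ (by positivity) ?_ k
      refine div_le_div_of_nonneg_right ?_ hk0.le
      refine div_le_div_of_nonneg_left hy0.le (by positivity) ?_
      nlinarith [sq_nonneg (k : ℝ)]
    rw [h8']
    refine h9.trans ?_
    rw [div_pow]
    refine div_le_div₀ (by positivity) (pow_le_pow_left₀ (by positivity) h1 k) (by positivity) h7
  have hmany := many y k (y ^ 6) (by omega) (Nat.one_le_iff_ne_zero.mpr (by positivity))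
  have hmanyR : (q.choose k : ℝ) ≤
      (((Finset.Icc 1 (y ^ k)).filter (fun n => tt n ≤ y ^ 6)).card : ℝ) +
        (q : ℝ) * (((y ^ k / y ^ 6 : ℕ) : ℝ) + 1) := by exact_mod_cast hmany
  have hdiv : ((y ^ k / y ^ 6 : ℕ) : ℝ) ≤ (y : ℝ) ^ k / (y : ℝ) ^ 6 := by
    have := @Nat.cast_div_le ℝ _ _ _ (y ^ k) (y ^ 6)
    push_cast at this
    exact this
  have hone : (1 : ℝ) ≤ (y : ℝ) ^ k / (y : ℝ) ^ 6 := by
    rw [one_le_div (by positivity)]
    exact pow_le_pow_right₀ (by linarith) (by omega)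
  have hrest : (q : ℝ) * (((y ^ k / y ^ 6 : ℕ) : ℝ) + 1) ≤ 2 * ((y : ℝ) ^ k / (y : ℝ) ^ 5) := by
    calc (q : ℝ) * (((y ^ k / y ^ 6 : ℕ) : ℝ) + 1)
        ≤ (y : ℝ) * (2 * ((y : ℝ) ^ k / (y : ℝ) ^ 6)) := by
          refine mul_le_mul hq2 (by linarith) (by positivity) hy0.le
      _ = 2 * ((y : ℝ) ^ k / (y : ℝ) ^ 5) := by
          field_simp
  have hfour : 3 * ((y : ℝ) ^ k / (y : ℝ) ^ 5) ≤ (y : ℝ) ^ k / (y : ℝ) ^ 4 := by
    rw [mul_div_assoc', div_le_div_iff₀ (by positivity) (by positivity)]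
    have : (y : ℝ) ^ 5 = y ^ 4 * y := by ring
    rw [this]
    have h10 : 0 ≤ (y : ℝ) ^ k * (y : ℝ) ^ 4 := by positivity
    nlinarith
  linarith

end Pool.Agent.H44.SQ
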