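import Pool.Agent.H44.SQ.Small2

/-! # Many `n` with very small `t_n`: all large `x` (MP_51b47a_nt) -/

set_option autoImplicit false
open scoped Classical

namespace Pool.Agent.H44.SQ

theorem exists_k (x : ℕ) (hx : (8 ^ 8) ^ 8 ≤ x) :
    ∃ k : ℕ, 8 ≤ k ∧ (k ^ k) ^ k ≤ x ∧ x < ((k + 1) ^ (k + 1)) ^ (k + 1) := by
  have hex : ∃ m : ℕ, x < (m ^ m) ^ m := by
    refine ⟨x + 2, ?_⟩
    have h1 : x + 2 ≤ (x + 2) ^ (x + 2) := Nat.le_self_pow (by omega) _
    have h2 : (x + 2) ^ (x + 2) ≤ ((x + 2) ^ (x + 2)) ^ (x + 2) := Nat.le_self_pow (by omega) _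
    omega
  have hm := Nat.find_spec hex
  have hmin : ∀ j < Nat.find hex, ¬ x < (j ^ j) ^ j := fun j hj => Nat.find_min hex hj
  set m := Nat.find hex with hmdef
  have h9 : 9 ≤ m := by
    by_contra h
    have hm8 : m ≤ 8 := by omega
    have : (m ^ m) ^ m ≤ (8 ^ 8) ^ 8 := by
      generalize m = j at hm8
      interval_cases j <;> norm_num
    omega
  refine ⟨m - 1, by omega, ?_, ?_⟩
  · exact not_lt.mp (hmin (m - 1) (by omega))
  · rw [show m - 1 + 1 = m by omega]
    exact hm

theorem count_large (x : ℕ) (hx : (8 ^ 8) ^ 8 ≤ x) :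
    (x : ℝ) * Real.exp (-(10 * √(Real.log x * Real.log (Real.log x)))) ≤
      (((Finset.Icc 1 x).filter (fun n => (tt n : ℝ) ≤
        Real.exp (6 * √(Real.log x * Real.log (Real.log x))))).card : ℝ) := by
  obtain ⟨k, hk, h1, h2⟩ := exists_k x hx
  have hkR : (8 : ℝ) ≤ k := by exact_mod_cast hk
  have hk0 : (0 : ℝ) < k := by linarith
  have hx0 : 0 < x := lt_of_lt_of_le (by positivity) hx
  have hxR : (0 : ℝ) < x := by exact_mod_cast hx0
  set l := Real.log k with hl
  have hl2 : 2 ≤ l := by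
    have h3 : Real.log 8 ≤ l := Real.log_le_log (by norm_num) hkR
    have h4 : Real.log 8 = 3 * Real.log 2 := by
      rw [show (8 : ℝ) = 2 ^ 3 by norm_num, Real.log_pow]
      norm_num
    have := Real.log_two_gt_d9
    linarith
  set X := Real.log x with hX
  have hX1 : (k : ℝ) ^ 2 * l ≤ X := by
    have h3 : Real.log (((k : ℝ) ^ k) ^ k) ≤ X := by
      refine Real.log_le_log (by positivity) ?_
      exact_mod_cast h1
    rw [Real.log_pow, Real.log_pow] at h3
    calc (k : ℝ) ^ 2 * l = k * (k * l) := by ring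
      _ ≤ X := h3
  have hX2 : X ≤ ((k : ℝ) ^ 2 + 5 * k) * l := by
    have h3 : X ≤ Real.log ((((k : ℝ) + 1) ^ (k + 1)) ^ (k + 1)) := by
      refine Real.log_le_log hxR ?_
      exact_mod_cast h2.le
    rw [Real.log_pow, Real.log_pow] at h3
    push_cast at h3
    have h4 : Real.log ((k : ℝ) + 1) ≤ l + 1 / k := by
      have h5 : Real.log ((k : ℝ) + 1) - l = Real.log (1 + 1 / k) := by
        rw [hl, ← Real.log_div (by positivity) hk0.ne']
        congr 1
        field_simp
      have h6 := Real.log_le_sub_one_of_pos (show (0 : ℝ) < 1 + 1 / k by positivity)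
      linarith
    have h7 : ((k : ℝ) + 1) * (((k : ℝ) + 1) * Real.log ((k : ℝ) + 1)) ≤
        ((k : ℝ) + 1) * (((k : ℝ) + 1) * (l + 1 / k)) := by gcongr
    have h8 : ((k : ℝ) + 1) * (((k : ℝ) + 1) * (l + 1 / k)) =
        ((k : ℝ) ^ 2 + 2 * k + 1) * l + (k + 2 + 1 / k) := by
      field_simp
      ring
    have h9 : 1 / (k : ℝ) ≤ 1 := by
      rw [div_le_one hk0]
      linarith
    nlinarith
  have hk2 : (0 : ℝ) < (k : ℝ) ^ 2 := by positivity
  have hXpos : 0 < X := lt_of_lt_of_le (by positivity) hX1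
  have hlogX : 2 * l ≤ Real.log X := by
    have h3 : Real.log ((k : ℝ) ^ 2) ≤ Real.log X := by
      refine Real.log_le_log hk2 (le_trans ?_ hX1)
      nlinarith
    rw [Real.log_pow] at h3
    exact_mod_cast h3
  set R := √(X * Real.log X) with hR
  have hkl : (k : ℝ) * l ≤ R := by
    refine Real.le_sqrt_of_sq_le ?_
    calc ((k : ℝ) * l) ^ 2 = ((k : ℝ) ^ 2 * l) * l := by ring
      _ ≤ X * Real.log X := by
        refine mul_le_mul hX1 (by linarith) (by linarith) hXpos.le
  -- the powers of `y`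
  have hyexp : ((k ^ k : ℕ) : ℝ) = Real.exp (k * l) := by
    push_cast
    rw [Real.exp_nat_mul, hl, Real.exp_log hk0]
  have hmain := count_k k hk
  have e1 : ((k ^ k : ℕ) : ℝ) ^ k / ((k ^ k : ℕ) : ℝ) ^ 5 =
      Real.exp ((k : ℝ) ^ 2 * l - 5 * (k * l)) := by
    rw [hyexp, ← Real.exp_nat_mul, ← Real.exp_nat_mul, ← Real.exp_sub]
    congr 1
    push_cast
    ring
  rw [e1] at hmain
  have e2 : (x : ℝ) * Real.exp (-(10 * R)) ≤ Real.exp ((k : ℝ) ^ 2 * l - 5 * (k * l)) := by
    have : (x : ℝ) = Real.exp X := (Real.exp_log hxR).symm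
    rw [this, ← Real.exp_add]
    refine Real.exp_le_exp.mpr ?_
    nlinarith
  refine (e2.trans hmain).trans ?_
  have hsub : (Finset.Icc 1 ((k ^ k) ^ k)).filter (fun n => tt n ≤ (k ^ k) ^ 6) ⊆
      (Finset.Icc 1 x).filter (fun n => (tt n : ℝ) ≤ Real.exp (6 * R)) := by
    intro n hn
    rw [Finset.mem_filter, Finset.mem_Icc] at hn ⊢
    refine ⟨⟨hn.1.1, hn.1.2.trans h1⟩, ?_⟩
    have h3 : (tt n : ℝ) ≤ ((k ^ k : ℕ) : ℝ) ^ 6 := by exact_mod_cast hn.2
    refine h3.trans ?_
    rw [hyexp, ← Real.exp_nat_mul]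
    refine Real.exp_le_exp.mpr ?_
    push_cast
    linarith
  exact_mod_cast Finset.card_le_card hsub

theorem inf_often (a : ℕ) : ∃ n ≥ a, (tt n : ℝ) ≤
    Real.exp (12 * √(Real.log n * Real.log (Real.log n))) := by
  have hlim : Filter.Tendsto (fun x : ℕ => Real.log (x : ℝ)) Filter.atTop Filter.atTop :=
    Real.tendsto_log_atTop.comp tendsto_natCast_atTop_atTop
  obtain ⟨x, ⟨hx1, hx2⟩, hx3⟩ := (((hlim.eventually_ge_atTop (10 ^ 6 : ℝ)).and
    (hlim.eventually_ge_atTop (2 * (a : ℝ)))).and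
    (Filter.eventually_ge_atTop ((8 ^ 8) ^ 8))).exists
  have hcnt := count_large x hx3
  have hx0 : 0 < x := lt_of_lt_of_le (by positivity) hx3
  have hxR : (0 : ℝ) < x := by exact_mod_cast hx0
  set X := Real.log x with hX
  set R := √(X * Real.log X) with hR
  have hXpos : 0 < X := by linarith
  have hlogX : 400 * Real.log X < X := by
    have h1 : Real.log X = 2 * Real.log (√X) := by
      rw [Real.log_sqrt hXpos.le]
      ring
    have h2 : Real.log (√X) ≤ √X := Real.log_le_self (Real.sqrt_nonneg _)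
    have h3 : (1000 : ℝ) ≤ √X := by
      refine Real.le_sqrt_of_sq_le ?_
      linarith
    have h4 : √X * √X = X := Real.mul_self_sqrt hXpos.le
    nlinarith
  have hR2 : R < X / 20 := by
    rw [hR, Real.sqrt_lt' (by positivity)]
    have : (X / 20) ^ 2 = X * (X / 400) := by ring
    rw [this]
    refine mul_lt_mul_of_pos_left ?_ hXpos
    linarith
  have hbig : Real.exp (X / 2) < (x : ℝ) * Real.exp (-(10 * R)) := by
    have : (x : ℝ) = Real.exp X := (Real.exp_log hxR).symm
    rw [this, ← Real.exp_add]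
    refine Real.exp_lt_exp.mpr ?_
    linarith
  have hex : ∃ n ∈ (Finset.Icc 1 x).filter (fun n => (tt n : ℝ) ≤ Real.exp (6 * R)),
      ⌊Real.exp (X / 2)⌋₊ < n := by
    by_contra hcon
    push Not at hcon
    have hsub : (Finset.Icc 1 x).filter (fun n => (tt n : ℝ) ≤ Real.exp (6 * R)) ⊆
        Finset.Icc 1 ⌊Real.exp (X / 2)⌋₊ := by
      intro n hn
      have h1 := hcon n hn
      rw [Finset.mem_filter, Finset.mem_Icc] at hn
      exact Finset.mem_Icc.mpr ⟨hn.1.1, h1⟩
    have h2 := Finset.card_le_card hsub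
    rw [Nat.card_Icc, Nat.add_sub_cancel] at h2
    have h3 : (((Finset.Icc 1 x).filter (fun n => (tt n : ℝ) ≤ Real.exp (6 * R))).card : ℝ) ≤
        Real.exp (X / 2) := by
      refine le_trans (by exact_mod_cast h2) (Nat.floor_le (Real.exp_pos _).le)
    linarith
  obtain ⟨n, hn, hn2⟩ := hex
  rw [Finset.mem_filter, Finset.mem_Icc] at hn
  have hn3 : Real.exp (X / 2) < n := Nat.lt_of_floor_lt hn2
  have hnpos : (0 : ℝ) < n := lt_trans (Real.exp_pos _) hn3
  have hlogn : X / 2 ≤ Real.log n := by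
    rw [Real.le_log_iff_exp_le hnpos]
    exact hn3.le
  have hlogn2 : 2 ≤ Real.log n := by linarith
  refine ⟨n, ?_, hn.2.trans (Real.exp_le_exp.mpr ?_)⟩
  · have h1 : (a : ℝ) < n := by
      refine lt_of_le_of_lt ?_ hn3
      have h2 := Real.add_one_le_exp (X / 2)
      linarith
    exact_mod_cast h1.le
  · have h1 : Real.log X ≤ 2 * Real.log (Real.log n) := by
      have h2 : Real.log X ≤ Real.log (2 * Real.log n) := Real.log_le_log hXpos (by linarith)
      rw [Real.log_mul (by norm_num) (by linarith)] at h2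
      have h3 : Real.log 2 ≤ Real.log (Real.log n) := Real.log_le_log (by norm_num) hlogn2
      linarith
    have h2 : 0 ≤ Real.log (Real.log n) := Real.log_nonneg (by linarith)
    have h3 : R ≤ 2 * √(Real.log n * Real.log (Real.log n)) := by
      rw [hR, Real.sqrt_le_left (by positivity), mul_pow,
        Real.sq_sqrt (mul_nonneg (by linarith) h2)]
      have h4 : 0 ≤ Real.log X := Real.log_nonneg (by linarith)
      calc X * Real.log X ≤ (2 * Real.log n) * (2 * Real.log (Real.log n)) :=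
            mul_le_mul (by linarith) h1 h4 (by linarith)
        _ = _ := by ring
    linarith

end Pool.Agent.H44.SQ
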