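import Pool.Agent.H44.SQ.Core
import Pool.Graph.R_seed8.H398R2.RK.Smooth

/-!
# Smooth numbers: `Ψ(N, y) log N ≪ N log y`; prime numbers up to powers of two; sums
-/

set_option autoImplicit false
open Finset
open scoped Classical ArithmeticFunction.vonMangoldt

namespace Pool.Agent.H44.SQ

open Pool.Agent.H318R2.Cr

/-- the `y`-smooth numbers up to `N` -/
noncomputable def Sm (N y : ℕ) : Finset ℕ :=
  (Finset.Icc 1 N).filter (fun n => ∀ p : ℕ, p.Prime → p ∣ n → p ≤ y)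

theorem mem_Sm {N y n : ℕ} : n ∈ Sm N y ↔ (1 ≤ n ∧ n ≤ N) ∧ ∀ p : ℕ, p.Prime → p ∣ n → p ≤ y := by
  unfold Sm
  rw [Finset.mem_filter, Finset.mem_Icc]

theorem sum_inv : ∃ C : ℝ, 0 < C ∧ ∀ N y : ℕ, 2 ≤ y →
    ∑ n ∈ Sm N y, (n : ℝ)⁻¹ ≤ C * Real.log y := by
  obtain ⟨c₁, c₂, hc₁, _, hV⟩ := cz_bounds
  refine ⟨c₁⁻¹, by positivity, fun N y hy => ?_⟩
  have h1 := Pool.Agent.H398R2.RK.smooth_tsum (σ := 1) one_pos y N
  simp only [Real.rpow_neg_one] at h1
  have h2 : ∏ p ∈ Pz y, (1 - ((p : ℝ))⁻¹)⁻¹ = (V y)⁻¹ := by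
    unfold V
    rw [← Finset.prod_inv_distrib]
    refine Finset.prod_congr rfl fun p _ => ?_
    rw [one_div]
  rw [h2] at h1
  have hl : 0 < Real.log y := Real.log_pos (by exact_mod_cast (by omega : 1 < y))
  have h3 := (hV y hy).1
  have hVpos : 0 < V y := by
    by_contra hc
    push Not at hc
    have : V y * Real.log y ≤ 0 := mul_nonpos_of_nonpos_of_nonneg hc hl.le
    linarith
  have h4 : (V y)⁻¹ ≤ c₁⁻¹ * Real.log y := by
    rw [inv_eq_one_div, div_le_iff₀ hVpos]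
    have : c₁⁻¹ * Real.log y * V y = c₁⁻¹ * (V y * Real.log y) := by ring
    rw [this]
    calc (1 : ℝ) = c₁⁻¹ * c₁ := (inv_mul_cancel₀ hc₁.ne').symm
      _ ≤ _ := mul_le_mul_of_nonneg_left h3 (by positivity)
  refine le_trans ?_ (h1.trans h4)
  apply le_of_eq
  unfold Sm
  rfl

theorem sum_log (N y : ℕ) : ∑ n ∈ Sm N y, Real.log n ≤
    (Real.log 4 + 4) * (N * ∑ n ∈ Sm N y, (n : ℝ)⁻¹) := by
  have h1 : ∑ n ∈ Sm N y, Real.log n = ∑ n ∈ Sm N y, ∑ d ∈ n.divisors, Λ d :=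
    Finset.sum_congr rfl fun n _ => (ArithmeticFunction.vonMangoldt_sum).symm
  have h2 : ∑ n ∈ Sm N y, ∑ d ∈ n.divisors, Λ d ≤
      ∑ m ∈ Sm N y, ∑ d ∈ Finset.Icc 0 (N / m), Λ d := by
    rw [Finset.sum_sigma', Finset.sum_sigma']
    set X := (Sm N y).sigma fun n => n.divisors with hX
    set Y := (Sm N y).sigma fun m => Finset.Icc 0 (N / m) with hY
    let f : (Σ _ : ℕ, ℕ) → (Σ _ : ℕ, ℕ) := fun x => ⟨x.1 / x.2, x.2⟩
    have hinj : Set.InjOn f X := by
      rintro ⟨n, d⟩ hx ⟨n', d'⟩ hx' he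
      rw [Finset.mem_coe, hX, Finset.mem_sigma] at hx hx'
      simp only [f, Sigma.mk.injEq, heq_eq_eq] at he
      obtain ⟨he1, rfl⟩ := he
      have e1 := Nat.div_mul_cancel (Nat.dvd_of_mem_divisors hx.2)
      have e2 := Nat.div_mul_cancel (Nat.dvd_of_mem_divisors hx'.2)
      simp only at e1 e2
      rw [he1, e2] at e1
      rw [e1]
    have hmap : X.image f ⊆ Y := by
      intro z hz
      obtain ⟨⟨n, d⟩, hx, rfl⟩ := Finset.mem_image.mp hz
      rw [hX, Finset.mem_sigma] at hx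
      simp only at hx
      rw [hY, Finset.mem_sigma]
      have hn := mem_Sm.mp hx.1
      have hd := Nat.dvd_of_mem_divisors hx.2
      have hdpos : 0 < d := Nat.pos_of_mem_divisors hx.2
      have hq : n / d ∣ n := Nat.div_dvd_of_dvd hd
      have hqpos : 1 ≤ n / d := Nat.div_pos (Nat.le_of_dvd (by omega) hd) hdpos
      refine ⟨mem_Sm.mpr ⟨⟨hqpos, (Nat.div_le_self _ _).trans hn.1.2⟩,
        fun p hp hpd => hn.2 p hp (hpd.trans hq)⟩, ?_⟩
      rw [Finset.mem_Icc]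
      refine ⟨Nat.zero_le _, ?_⟩
      change d ≤ N / (n / d)
      rw [Nat.le_div_iff_mul_le hqpos, mul_comm, Nat.div_mul_cancel hd]
      exact hn.1.2
    have himg : ∑ z ∈ X.image f, (fun z : (Σ _ : ℕ, ℕ) => Λ z.2) z =
        ∑ x ∈ X, (fun z : (Σ _ : ℕ, ℕ) => Λ z.2) (f x) := Finset.sum_image hinj
    calc ∑ x ∈ X, Λ x.2 = ∑ x ∈ X, (fun z : (Σ _ : ℕ, ℕ) => Λ z.2) (f x) := rfl
      _ = ∑ z ∈ X.image f, Λ z.2 := himg.symm
      _ ≤ ∑ z ∈ Y, Λ z.2 := Finset.sum_le_sum_of_subset_of_nonneg hmap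
          (fun z _ _ => ArithmeticFunction.vonMangoldt_nonneg)
  rw [h1]
  refine h2.trans ?_
  rw [Finset.mul_sum, Finset.mul_sum]
  refine Finset.sum_le_sum fun m hm => ?_
  have h3 : ∑ d ∈ Finset.Icc 0 (N / m), Λ d = Chebyshev.psi ((N / m : ℕ) : ℝ) := by
    rw [Chebyshev.psi_eq_sum_Icc, Nat.floor_natCast]
  rw [h3]
  refine (Chebyshev.psi_le_const_mul_self (Nat.cast_nonneg _)).trans ?_
  have h4 : ((N / m : ℕ) : ℝ) ≤ (N : ℝ) * (m : ℝ)⁻¹ := by
    rw [← div_eq_mul_inv]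
    exact Nat.cast_div_le
  have h5 : 0 ≤ Real.log 4 + 4 := by
    have := Real.log_nonneg (by norm_num : (1 : ℝ) ≤ 4)
    linarith
  exact mul_le_mul_of_nonneg_left h4 h5

theorem smooth_card : ∃ C : ℝ, 0 < C ∧ ∀ N y : ℕ, 1 ≤ N → 2 ≤ y →
    ((Sm N y).card : ℝ) * Real.log N ≤ Nat.sqrt N * Real.log N + C * (N * Real.log y) := by
  obtain ⟨C, hC, h⟩ := sum_inv
  have h5 : 0 < Real.log 4 + 4 := by
    have := Real.log_nonneg (by norm_num : (1 : ℝ) ≤ 4)
    linarith
  refine ⟨2 * ((Real.log 4 + 4) * C), by positivity, fun N y hN hy => ?_⟩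
  have h1 := sum_log N y
  have h2 := h N y hy
  set s := Nat.sqrt N with hs
  have hlog : 0 ≤ Real.log N := Real.log_nonneg (by exact_mod_cast hN)
  have hN0 : (0 : ℝ) ≤ N := Nat.cast_nonneg _
  have h3 : (((Sm N y).filter (fun n => s < n)).card : ℝ) * (Real.log N / 2) ≤
      ∑ n ∈ Sm N y, Real.log n := by
    have h4 : ∑ n ∈ (Sm N y).filter (fun n => s < n), Real.log n ≤ ∑ n ∈ Sm N y, Real.log n := by
      apply Finset.sum_le_sum_of_subset_of_nonneg (Finset.filter_subset _ _)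
      intro n hn _
      exact Real.log_nonneg (by exact_mod_cast (mem_Sm.mp hn).1.1)
    refine le_trans ?_ h4
    rw [← nsmul_eq_mul]
    apply Finset.card_nsmul_le_sum
    intro n hn
    rw [Finset.mem_filter] at hn
    have hlt : N < n * n := Nat.sqrt_lt.mp hn.2
    have hn1 : (0 : ℝ) < n := by exact_mod_cast (mem_Sm.mp hn.1).1.1
    have h6 : Real.log N ≤ Real.log (n * n : ℝ) := by
      apply Real.log_le_log (by exact_mod_cast hN)
      exact_mod_cast hlt.le
    rw [Real.log_mul hn1.ne' hn1.ne'] at h6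
    linarith
  have h4 : ((Sm N y).card : ℝ) ≤ s + (((Sm N y).filter (fun n => s < n)).card : ℝ) := by
    have h6 : (Sm N y).card ≤ s + ((Sm N y).filter (fun n => s < n)).card := by
      rw [← Finset.card_filter_add_card_filter_not (s := Sm N y) (fun n => s < n), add_comm]
      apply Nat.add_le_add_right
      calc _ ≤ (Finset.Icc 1 s).card := by
            apply Finset.card_le_card
            intro n hn
            rw [Finset.mem_filter] at hn
            rw [Finset.mem_Icc]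
            exact ⟨(mem_Sm.mp hn.1).1.1, by omega⟩
        _ = s := by rw [Nat.card_Icc]; omega
    exact_mod_cast h6
  have h7 : ∑ n ∈ Sm N y, Real.log n ≤ (Real.log 4 + 4) * (N * (C * Real.log y)) :=
    h1.trans (mul_le_mul_of_nonneg_left (mul_le_mul_of_nonneg_left h2 hN0) h5.le)
  have h8 : ((Sm N y).card : ℝ) * Real.log N ≤
      (s + (((Sm N y).filter (fun n => s < n)).card : ℝ)) * Real.log N :=
    mul_le_mul_of_nonneg_right h4 hlog
  have h9 : (s + (((Sm N y).filter (fun n => s < n)).card : ℝ)) * Real.log N =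
      s * Real.log N + 2 * ((((Sm N y).filter (fun n => s < n)).card : ℝ) * (Real.log N / 2)) := by
    ring
  have h10 : 2 * ((Real.log 4 + 4) * C) * (N * Real.log y) =
      2 * ((Real.log 4 + 4) * (N * (C * Real.log y))) := by ring
  rw [h10]
  linarith

theorem sq_le_pow (i : ℕ) : i ^ 2 ≤ 4 * 2 ^ i := by
  induction i with
  | zero => norm_num
  | succ k ih =>
    rcases Nat.lt_or_ge k 3 with h | h
    · interval_cases k <;> norm_num
    · rw [pow_succ 2 k]
      nlinarith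

theorem primes_pow (i : ℕ) (hi : 1 ≤ i) :
    (((Finset.Icc 1 (2 ^ i)).filter Nat.Prime).card : ℝ) ≤ 6 * (2 ^ i / i) := by
  have hx : (1 : ℝ) < (2 : ℝ) ^ i := one_lt_pow₀ (by norm_num) (by omega)
  have h := Chebyshev.pi_le_log4_mul_div hx
  have e1 : ⌊(2 : ℝ) ^ i⌋₊ = 2 ^ i := by
    have : ((2 ^ i : ℕ) : ℝ) = (2 : ℝ) ^ i := by push_cast; rfl
    rw [← this, Nat.floor_natCast]
  rw [e1, ← Nat.primesLE_card_eq_primeCounting, Nat.primesLE_eq_filter_Icc_one] at h
  refine h.trans ?_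
  have hl2 : 0 < Real.log 2 := Real.log_pos (by norm_num)
  have hi0 : (0 : ℝ) < i := by exact_mod_cast hi
  have e2 : Real.log √((2 : ℝ) ^ i) = i * Real.log 2 / 2 := by
    rw [Real.log_sqrt (by positivity), Real.log_pow]
  have e3 : Real.log 4 = 2 * Real.log 2 := by
    rw [show (4 : ℝ) = 2 ^ 2 by norm_num, Real.log_pow]; norm_num
  have e4 : Real.log 4 * 2 ^ i / Real.log √((2 : ℝ) ^ i) = 4 * (2 ^ i / i) := by
    rw [e2, e3]
    field_simp
    ring
  have e5 : √((2 : ℝ) ^ i) ≤ 2 * (2 ^ i / i) := by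
    rw [Real.sqrt_le_left (by positivity)]
    have h1 : ((i ^ 2 : ℕ) : ℝ) ≤ ((4 * 2 ^ i : ℕ) : ℝ) := by exact_mod_cast sq_le_pow i
    push_cast at h1
    have h2 : (2 * ((2 : ℝ) ^ i / i)) ^ 2 = 4 * 2 ^ i * 2 ^ i / i ^ 2 := by
      field_simp
      ring
    rw [h2, le_div_iff₀ (by positivity)]
    have h3 : (0 : ℝ) < 2 ^ i := by positivity
    nlinarith
  rw [e4]
  linarith

/-- harmonic sums -/
theorem sum_one_div (a b : ℕ) (ha : 1 ≤ a) (hab : a ≤ b) :
    ∑ i ∈ Finset.Icc a b, (1 : ℝ) / i ≤ 1 + Real.log (b / a) := by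
  induction b, hab using Nat.le_induction with
  | base =>
    have ha0 : (0 : ℝ) < a := by exact_mod_cast ha
    rw [Finset.Icc_self, Finset.sum_singleton, div_self ha0.ne', Real.log_one, add_zero,
      div_le_one ha0]
    exact_mod_cast ha
  | succ b hb ih =>
    have ha0 : (0 : ℝ) < a := by exact_mod_cast ha
    have hb0 : (0 : ℝ) < b := by exact_mod_cast (by omega : 0 < b)
    rw [Finset.sum_Icc_succ_top (by omega)]
    have h1 := Real.one_sub_inv_le_log_of_pos (x := ((b + 1 : ℕ) : ℝ) / b) (by positivity)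
    rw [Real.log_div (by positivity) (by positivity)] at h1
    rw [Real.log_div hb0.ne' ha0.ne'] at ih
    rw [Real.log_div (by positivity) ha0.ne']
    have h2 : 1 - (((b + 1 : ℕ) : ℝ) / b)⁻¹ = 1 / ((b + 1 : ℕ) : ℝ) := by
      push_cast
      field_simp
      ring
    rw [h2] at h1
    linarith

/-- sums of `2^i / i` -/
theorem sum_pow_div (M : ℕ) (hM : 1 ≤ M) :
    ∑ i ∈ Finset.Icc 1 M, (2 : ℝ) ^ i / i ≤ 4 * (2 ^ M / M) := by
  induction M, hM using Nat.le_induction with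
  | base => norm_num
  | succ M hM ih =>
    rw [Finset.sum_Icc_succ_top (by omega)]
    rcases Nat.lt_or_ge M 2 with h | h
    · have : M = 1 := by omega
      subst this
      norm_num
    · have hM0 : (0 : ℝ) < M := by exact_mod_cast (by omega : 0 < M)
      have hM2 : (2 : ℝ) ≤ M := by exact_mod_cast h
      have h3 : 4 * ((2 : ℝ) ^ M / M) ≤ 3 * (2 ^ (M + 1) / ((M + 1 : ℕ) : ℝ)) := by
        rw [pow_succ]
        push_cast
        rw [← mul_div_assoc, ← mul_div_assoc, div_le_div_iff₀ hM0 (by positivity)]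
        have h4 : (0 : ℝ) < 2 ^ M := by positivity
        nlinarith
      linarith

end Pool.Agent.H44.SQ
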